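import Pool.Agent.H61.ZO.Def

/-!
# [H61 ZO JB] THEOREM Z0 (MP_e49dc9_ag), JJ: the order filtration has small steps

`jj_cnt`: `Ov p t`, any `u + 1` elements of the finite dimensional space `L ⊆ K` satisfy a relation over `k[t]`, all elements of `L` have order at least `e` at `p`,
`(m + 1) u < dim L`: there is `f ∈ L`, `f ≠ 0`, of order at least `e + m + 1`.
PROOF. `L j = {f ∈ L | f = 0 or e + j ≤ ord f}`, a subspace.  STEP: if `f_0, .., f_u ∈ L j` then some combination `∑ a_i f_i` with `a ∈ k ^ (u + 1)`, `a ≠ 0`, is in `L (j + 1)`: take the relation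
`∑ p_i(t) f_i = 0`, `p ≠ 0`, divide all `p_i` by the largest common power of `T - c` (`V`, `c` from `Ov`): not all `p_i(c)` are `0`.  `π` with `ord π = 1`, `g_i = f_i / π ^ (e + j) ∈ p.R ⊆ V`;
`p_i(t) - p_i(c)` is in `(t - c) k[t]`, so in the maximal ideal of `V` (`t - c ∈ 𝔪_V` since its inverse is not in `V`; `k ⊆ p.R`): `∑ p_i(c) g_i ∈ 𝔪_V ∩ K = 𝔪_p`.  So `dim L (j + 1) ≥ dim L j - u`
(`L j / L (j + 1)` has no `u + 1` independent elements), `dim L (m + 1) ≥ dim L - (m + 1) u > 0`.
-/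

set_option autoImplicit false

namespace Pool.Agent.H61.ZO

open Pool.Agent.H54.RV Pool.Agent.H83.TU

variable {k K Ω : Type} [Field k] [Field K] [Algebra k K] [Field Ω] [Algebra k Ω] [Algebra K Ω]

/-- the dimension of a subspace -/
private theorem dim_step {E : Type} [AddCommGroup E] [Module k E] (W W' : Submodule k E) [FiniteDimensional k W] (hW : W' ≤ W)
    (u : ℕ) (h : ∀ f : Fin (u + 1) → E, (∀ i, f i ∈ W) → ∃ a : Fin (u + 1) → k, a ≠ 0 ∧ ∑ i, a i • f i ∈ W') :
    Module.finrank k W ≤ Module.finrank k W' + u := by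
  let S : Submodule k W := W'.comap W.subtype
  have h1 : Module.finrank k S = Module.finrank k W' := (Submodule.comapSubtypeEquivOfLe hW).finrank_eq
  have h2 := Submodule.finrank_quotient_add_finrank S
  have h3 : Module.finrank k (W ⧸ S) ≤ u := by
    by_contra hlt
    obtain ⟨v, hv⟩ := exists_linearIndependent_of_le_finrank (R := k) (M := W ⧸ S) (n := u + 1) (by omega)
    choose f hf using fun i => Submodule.mkQ_surjective S (v i)
    obtain ⟨a, ha, ha'⟩ := h (fun i => (f i : E)) (fun i => (f i).2)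
    apply ha
    funext i
    refine Fintype.linearIndependent_iff.1 hv a ?_ i
    have h4 : ∑ i, a i • v i = S.mkQ (∑ i, a i • f i) := by
      rw [map_sum]
      exact Finset.sum_congr rfl fun i _ => by rw [map_smul, hf]
    rw [h4, Submodule.mkQ_apply, Submodule.Quotient.mk_eq_zero]
    show W.subtype (∑ i, a i • f i) ∈ W'
    rw [map_sum]
    exact ha'
  omega

open Polynomial in
/-- division by the largest common power of `T - c` -/
private theorem poly_div {n : ℕ} (c : k) (P : Fin n → Polynomial k) (hP : P ≠ 0) : ∃ (N : ℕ) (Q : Fin n → Polynomial k),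
    (∀ i, P i = (X - C c) ^ N * Q i) ∧ ∃ i, (Q i).eval c ≠ 0 := by
  classical
  obtain ⟨j, hj⟩ : ∃ j, P j ≠ 0 := by
    by_contra hcon
    apply hP
    funext j
    by_contra hj
    exact hcon ⟨j, hj⟩
  obtain ⟨i, hi, hi'⟩ := Finset.exists_min_image (Finset.univ.filter fun i => P i ≠ 0) (fun i => (P i).rootMultiplicity c)
    ⟨j, by simpa using hj⟩
  have hi0 : P i ≠ 0 := by simpa using hi
  let N := (P i).rootMultiplicity c
  have h1 : ∀ l, ∃ q, P l = (X - C c) ^ N * q := by
    intro l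
    by_cases hl : P l = 0
    · exact ⟨0, by rw [hl, mul_zero]⟩
    · have h2 : N ≤ (P l).rootMultiplicity c := hi' l (by simpa using hl)
      exact (Polynomial.le_rootMultiplicity_iff hl).1 h2
  choose Q hQ using h1
  refine ⟨N, Q, hQ, i, fun h => ?_⟩
  obtain ⟨q, hq⟩ := Polynomial.dvd_iff_isRoot.2 h
  have h3 : N + 1 ≤ (P i).rootMultiplicity c := by
    rw [Polynomial.le_rootMultiplicity_iff hi0]
    exact ⟨q, by rw [hQ i, hq, pow_succ, mul_assoc]⟩
  have : (P i).rootMultiplicity c = N := rfl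
  omega

private theorem ord_pw (p : Place k K) {a : K} (ha : a ≠ 0) (n : ℕ) : p.ord (a ^ n) = n * p.ord a := by
  induction n with
  | zero => simp [ord_one]
  | succ n ih =>
    rw [pow_succ, ord_mul p _ _ (pow_ne_zero n ha) ha, ih]
    push_cast
    ring

private theorem ord_zpw (p : Place k K) {a : K} (ha : a ≠ 0) (n : ℤ) : p.ord (a ^ n) = n * p.ord a := by
  obtain ⟨m, rfl | rfl⟩ := n.eq_nat_or_neg
  · rw [zpow_natCast, ord_pw p ha]
  · rw [zpow_neg, ord_inv, zpow_natCast, ord_pw p ha]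
    ring

variable [IsScalarTower k K Ω]

open Polynomial in
/-- the key step -/
private theorem key (p : Place k K) {t : Ω} (ho : Ov p t) {n : ℕ} (g : Fin n → K) (hg : ∀ i, g i ∈ p.R)
    (P : Fin n → Polynomial k) (hP : P ≠ 0) (h0 : ∑ i, aeval t (P i) * algebraMap K Ω (g i) = 0) :
    ∃ a : Fin n → k, a ≠ 0 ∧ (∑ i, a i • g i = 0 ∨ (∑ i, a i • g i)⁻¹ ∉ p.R) := by
  obtain ⟨V, c, hV, hc⟩ := ho
  obtain ⟨N, Q, hQ, j, hj⟩ := poly_div c P hP
  have hk : ∀ a : k, algebraMap k Ω a ∈ V := by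
    intro a
    rw [IsScalarTower.algebraMap_apply k K Ω, hV]
    exact p.mem a
  have hx : t - algebraMap k Ω c ∈ V := (V.mem_or_inv_mem _).resolve_right hc
  have hx0 : t - algebraMap k Ω c ≠ 0 := by
    intro h
    apply hc
    rw [h, inv_zero]
    exact zero_mem _
  have ht : t ∈ V := by
    have := add_mem hx (hk c)
    rwa [sub_add_cancel] at this
  have hq : ∀ q : Polynomial k, aeval t q ∈ V := by
    intro q
    induction q using Polynomial.induction_on' with
    | add p q hp hq => rw [map_add]; exact add_mem hp hq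
    | monomial n a =>
      rw [aeval_monomial]
      exact mul_mem (hk a) (pow_mem ht n)
  have h1 : ∑ i, aeval t (Q i) * algebraMap K Ω (g i) = 0 := by
    have h2 : (t - algebraMap k Ω c) ^ N * ∑ i, aeval t (Q i) * algebraMap K Ω (g i) = 0 := by
      rw [← h0, Finset.mul_sum]
      refine Finset.sum_congr rfl fun i _ => ?_
      rw [hQ i, map_mul, map_pow, map_sub, aeval_X, aeval_C, mul_assoc]
    exact (mul_eq_zero.1 h2).resolve_left (pow_ne_zero N hx0)
  have h2 : ∀ i, ∃ q, Q i = C ((Q i).eval c) + (X - C c) * q := by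
    intro i
    obtain ⟨q, hq⟩ := Polynomial.X_sub_C_dvd_sub_C_eval (a := c) (p := Q i)
    exact ⟨q, by rw [← hq]; ring⟩
  choose q hq' using h2
  let y := ∑ i, aeval t (q i) * algebraMap K Ω (g i)
  have hy : y ∈ V := sum_mem fun i _ => mul_mem (hq _) ((hV _).2 (hg i))
  have h3 : algebraMap K Ω (∑ i, (Q i).eval c • g i) + (t - algebraMap k Ω c) * y = 0 := by
    rw [← h1, map_sum, Finset.mul_sum, ← Finset.sum_add_distrib]
    refine Finset.sum_congr rfl fun i _ => ?_
    conv_rhs => rw [hq' i]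
    rw [map_add, map_mul, map_sub, aeval_X, aeval_C, aeval_C, Algebra.smul_def, map_mul, ← IsScalarTower.algebraMap_apply k K Ω]
    ring
  refine ⟨fun i => (Q i).eval c, fun h => hj (congrFun h j), ?_⟩
  by_cases h4 : ∑ i, (Q i).eval c • g i = 0
  · exact Or.inl h4
  · right
    intro h5
    apply hc
    have h6 := (hV _).2 h5
    rw [map_inv₀] at h6
    have h7 : algebraMap K Ω (∑ i, (Q i).eval c • g i) ≠ 0 := by
      rw [Ne, map_eq_zero]
      exact h4
    have h8 : (t - algebraMap k Ω c)⁻¹ = - (y * (algebraMap K Ω (∑ i, (Q i).eval c • g i))⁻¹) := by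
      have h9 : algebraMap K Ω (∑ i, (Q i).eval c • g i) = - ((t - algebraMap k Ω c) * y) := eq_neg_of_add_eq_zero_left h3
      rw [h9] at h7 ⊢
      have hy0 : y ≠ 0 := by
        rintro h
        apply h7
        rw [h, mul_zero, neg_zero]
      field_simp
    rw [h8]
    exact neg_mem (mul_mem hy h6)

theorem jj_cnt (p : Place k K) {t : Ω} (ho : Ov p t) (L : Submodule k K) [FiniteDimensional k L] {u : ℕ}
    (hr : RelT (k := k) t (L : Set K) u) {e : ℤ} (he : ∀ f ∈ L, f ≠ 0 → e ≤ p.ord f) {m : ℕ}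
    (hm : (m + 1) * u < Module.finrank k L) : ∃ f ∈ L, f ≠ 0 ∧ e + m + 1 ≤ p.ord f := by
  obtain ⟨π, hπ0, hπ1⟩ := ord_unif p
  have hz : ∀ j : ℤ, π ^ j ≠ 0 := fun j => zpow_ne_zero j hπ0
  have hord : ∀ (f : K) (j : ℤ), f ≠ 0 → (f * π ^ (-j) ∈ p.R ↔ j ≤ p.ord f) := by
    intro f j hf
    rw [← ord_nonneg p _ (mul_ne_zero hf (hz _)), ord_mul p _ _ hf (hz _), ord_zpw p hπ0, hπ1]
    constructor <;> intro h <;> linarith
  let T : ℤ → Submodule k K := fun j =>
    { carrier := {f | f ∈ L ∧ f * π ^ (-j) ∈ p.R}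
      add_mem' := by
        rintro a b ⟨h1, h2⟩ ⟨h3, h4⟩
        exact ⟨add_mem h1 h3, by rw [add_mul]; exact add_mem h2 h4⟩
      zero_mem' := ⟨zero_mem _, by rw [zero_mul]; exact zero_mem _⟩
      smul_mem' := by
        rintro a b ⟨h1, h2⟩
        exact ⟨L.smul_mem a h1, by rw [smul_mul_assoc, Algebra.smul_def]; exact mul_mem (p.mem a) h2⟩ }
  have hT : ∀ j f, f ∈ T j ↔ f ∈ L ∧ f * π ^ (-j) ∈ p.R := fun j f => Iff.rfl
  have hTL : ∀ j, T j ≤ L := fun j f hf => hf.1
  have hfin : ∀ j, FiniteDimensional k (T j) := fun j => Submodule.finiteDimensional_of_le (hTL j)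
  have hle : ∀ j, T (j + 1) ≤ T j := by
    rintro j f ⟨h1, h2⟩
    refine ⟨h1, ?_⟩
    by_cases hf : f = 0
    · rw [hf, zero_mul]; exact zero_mem _
    · rw [hord _ _ hf] at h2 ⊢
      omega
  have hT0 : T e = L := by
    refine le_antisymm (hTL e) fun f hf => ⟨hf, ?_⟩
    by_cases hf0 : f = 0
    · rw [hf0, zero_mul]; exact zero_mem _
    · rw [hord _ _ hf0]
      exact he f hf hf0
  have hstep : ∀ j, Module.finrank k (T j) ≤ Module.finrank k (T (j + 1)) + u := by
    intro j
    have := hfin j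
    refine dim_step (T j) (T (j + 1)) (hle j) u fun f hf => ?_
    obtain ⟨P, hP, hP'⟩ := hr f fun i => (hf i).1
    obtain ⟨a, ha, ha'⟩ := key p ho (fun i => f i * π ^ (-j)) (fun i => (hf i).2) P hP (by
      have h2 : (∑ i, Polynomial.aeval t (P i) * algebraMap K Ω (f i)) * algebraMap K Ω (π ^ (-j)) = 0 := by
        rw [hP', zero_mul]
      rw [← h2, Finset.sum_mul]
      exact Finset.sum_congr rfl fun i _ => by rw [map_mul]; ring)
    refine ⟨a, ha, ?_, ?_⟩
    · exact sum_mem fun i _ => L.smul_mem _ (hf i).1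
    · have h3 : ∑ i, a i • (f i * π ^ (-j)) = (∑ i, a i • f i) * π ^ (-j) := by
        rw [Finset.sum_mul]
        exact Finset.sum_congr rfl fun i _ => by rw [smul_mul_assoc]
      rw [h3] at ha'
      by_cases h4 : ∑ i, a i • f i = 0
      · rw [h4, zero_mul]; exact zero_mem _
      · have h5 : (∑ i, a i • f i) * π ^ (-j) ∈ p.R := by
          rw [← h3]
          exact sum_mem fun i _ => by
            rw [Algebra.smul_def]
            exact mul_mem (p.mem _) (hf i).2
        have h6 := ha'.resolve_left (mul_ne_zero h4 (hz _))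
        have h7 : p.ord ((∑ i, a i • f i) * π ^ (-j)) ≠ 0 := by
          intro h
          exact h6 ((ord_eq_zero p _ (mul_ne_zero h4 (hz _))).1 h).2
        have h8 := (ord_nonneg p _ (mul_ne_zero h4 (hz _))).2 h5
        rw [ord_mul p _ _ h4 (hz _), ord_zpw p hπ0, hπ1] at h7 h8
        rw [hord _ _ h4]
        omega
  have hall : ∀ j : ℕ, Module.finrank k L ≤ Module.finrank k (T (e + j)) + j * u := by
    intro j
    induction j with
    | zero =>
      rw [Nat.cast_zero, add_zero, hT0, zero_mul, add_zero]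
    | succ j ih =>
      have h1 := hstep (e + j)
      have h2 : e + ((j + 1 : ℕ) : ℤ) = e + j + 1 := by push_cast; ring
      rw [h2, Nat.succ_mul]
      omega
  have h1 := hall (m + 1)
  have h2 : 0 < Module.finrank k (T (e + (m + 1 : ℕ))) := by omega
  have h3 : T (e + (m + 1 : ℕ)) ≠ ⊥ := by
    intro h
    rw [h, finrank_bot] at h2
    exact lt_irrefl _ h2
  obtain ⟨f, hf, hf0⟩ := Submodule.exists_mem_ne_zero_of_ne_bot h3
  refine ⟨f, hf.1, hf0, ?_⟩
  have h4 := (hord _ _ hf0).1 hf.2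
  push_cast at h4
  omega

end Pool.Agent.H61.ZO
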