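import Pool.Agent.H61.ZO.JA
import Pool.Agent.H83.TU.PO

/-!
# [H61 ZO JC] THEOREM Z0 (MP_e49dc9_ag), JJ: infinitely many prime divisors over the points of `t`

`inf_ov`: `t` algebraic over `K`, transcendental over `k`: there are infinitely many prime divisors `P` with `Ov P.p t`.
PROOF. `P_t` the minimal polynomial of `t` over `K`, coefficients `a_0, .., a_d`.  For `c ∈ k` put
`b_c = P_t(c) = ∑ a_i c ^ i`.  (1) For all but at most `d` values `c` there is a prime divisor `P` with `0 < ord_P b_c`: otherwise `b_c⁻¹ ∈ X.O x` for all `x` (`b_c ≠ 0` since `t ∉ k`;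
`exists_pdiv` for the pole divisor of `b_c⁻¹`), so `b_c ∈ k` (`h0 1 1 = 1`, k algebraically closed: library, e.g. `one_inv`); `d + 1` such `c` would give all `a_i ∈ k` (Lagrange / Vandermonde)
and `t` algebraic over `k`.  (2) A given `P` occurs for at most `d` values `c`: `ε` the minimum of the orders of the `a_i ≠ 0` (`≤ 0`, the polynomial is monic), `π ^ (-ε) P_t` has coefficients in
`P.p.R` and nonzero reduction modulo the maximal ideal, and `c` is a root of the reduction.  So infinitely many `P`.  (3) `Ov P.p t` by `ov_of`.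
-/

set_option autoImplicit false

namespace Pool.Agent.H61.ZO

open Pool.Agent.H54.RV Pool.Agent.H83.TU Pool.Agent.H83.TK Pool.Agent.H20.TD Pool.Agent.H20.TP

variable {k K Ω : Type} [Field k] [Field K] [Algebra k K] [Field Ω] [Algebra k Ω] [Algebra K Ω] [IsScalarTower k K Ω] {X : Mod k K}

/-- the global functions are the constants -/
private theorem jc_glob [IsAlgClosed k] [CharZero k] (h : Hyp X) {ζ : K} (hζ : ∀ x, ζ ∈ X.O x) :
    ∃ c : k, algebraMap k K c = ζ := by
  have hGF := Pool.Agent.H20.TU.gf h.var h.gen h.tr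
  have hfin : Module.Finite k (secL (1 : Cart X) 1) := hGF.1 1 1
  have h1 : (1 : K) ∈ secL (1 : Cart X) 1 := by
    rw [mem_secL]
    intro x
    rw [one_eq, one_pow, mul_one]
    exact (X.O x).one_mem
  have h2 : IsIntegral k ζ := by
    refine isIntegral_of_smul_mem_submodule (N := secL (1 : Cart X) 1)
      ?_ (Module.Finite.iff_fg.1 hfin) ζ ?_
    · intro hbot
      rw [hbot, Submodule.mem_bot] at h1
      exact one_ne_zero h1
    · intro n hn
      rw [mem_secL] at hn ⊢
      intro x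
      rw [smul_eq_mul, mul_assoc]
      exact (X.O x).mul_mem (hζ x) (hn x)
  have h3 : (minpoly k ζ).degree = 1 := IsAlgClosed.degree_eq_one_of_irreducible k (minpoly.irreducible h2)
  exact minpoly.mem_range_of_degree_eq_one k ζ h3

private theorem jc_place (P Q : PDiv X) (h : P.η = Q.η) : P.p = Q.p := by
  have hR : P.p.R = Q.p.R := ValuationSubring.ext _ _ (fun x => by rw [← P.mem, ← Q.mem, h])
  obtain ⟨p, hp⟩ : ∃ p, p = P.p := ⟨_, rfl⟩
  obtain ⟨q, hq⟩ : ∃ q, q = Q.p := ⟨_, rfl⟩
  rw [← hp, ← hq] at hR ⊢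
  clear hp hq
  cases p
  cases q
  dsimp only at hR
  subst hR
  rfl

private theorem jc_pos (p : Place k K) {a : K} (h : 0 < p.ord a) (ha0 : a ≠ 0) :
    ∃ y : p.R, y ∈ IsLocalRing.maximalIdeal p.R ∧ (y : K) = a := by
  have ha : a ∈ p.R := (ord_nonneg p a ha0).1 h.le
  refine ⟨⟨a, ha⟩, ?_, rfl⟩
  rw [IsLocalRing.mem_maximalIdeal, mem_nonunits_iff]
  rintro ⟨u, hu⟩
  have h1 : (u : p.R) * (u⁻¹ : (p.R)ˣ) = 1 := u.mul_inv
  have h2 : a * (((u⁻¹ : (p.R)ˣ) : p.R) : K) = 1 := by
    have h3 := congrArg (fun x : p.R => (x : K)) h1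
    rw [hu] at h3
    exact h3
  have h3 : a⁻¹ = (((u⁻¹ : (p.R)ˣ) : p.R) : K) := inv_eq_of_mul_eq_one_right h2
  have h4 : a⁻¹ ∈ p.R := by
    rw [h3]
    exact Subtype.mem _
  have h5 := (ord_nonneg p _ (inv_ne_zero ha0)).2 h4
  rw [ord_inv] at h5
  omega

private theorem jc_fin (p : Place k K) {f : Polynomial K} (hf : f.Monic)
    (hne : ∀ c : k, f.eval (algebraMap k K c) ≠ 0) :
    {c : k | 0 < p.ord (f.eval (algebraMap k K c))}.Finite := by
  classical
  by_contra hinf
  obtain ⟨s, hs, hcard⟩ := Set.Infinite.exists_subset_card_eq hinf (f.natDegree + 1)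
  have hv : Set.InjOn (algebraMap k K) (s : Set k) := (algebraMap k K).injective.injOn
  have h1 := Lagrange.leadingCoeff_eq_sum hv (P := f) (by
    rw [hcard, Polynomial.degree_eq_natDegree hf.ne_zero]
    push_cast
    rfl)
  rw [hf.leadingCoeff] at h1
  let J : AddSubgroup K := (Submodule.toAddSubgroup (IsLocalRing.maximalIdeal p.R)).map p.R.subtype.toAddMonoidHom
  have hJ : ∀ y ∈ IsLocalRing.maximalIdeal p.R, (y : K) ∈ J := fun y hy => ⟨y, hy, rfl⟩
  have h2 : (1 : K) ∈ J := by
    rw [h1]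
    refine sum_mem fun c hc => ?_
    obtain ⟨y, hy, hyc⟩ := jc_pos p (hs hc) (hne c)
    have h3 : (∏ j ∈ s.erase c, (algebraMap k K c - algebraMap k K j))⁻¹ =
        algebraMap k K (∏ j ∈ s.erase c, (c - j))⁻¹ := by
      rw [map_inv₀, map_prod]
      congr 1
      exact Finset.prod_congr rfl fun j _ => (map_sub _ _ _).symm
    rw [div_eq_mul_inv, h3, ← hyc]
    have h4 := hJ (y * ⟨_, p.mem (∏ j ∈ s.erase c, (c - j))⁻¹⟩) (Ideal.mul_mem_right _ _ hy)
    exact h4
  obtain ⟨y, hy, hy1⟩ := h2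
  have h3 : y = 1 := Subtype.ext hy1
  rw [h3] at hy
  exact (Ideal.ne_top_iff_one _).1 (IsLocalRing.maximalIdeal.isMaximal p.R).ne_top hy

omit [IsScalarTower k K Ω] in
private theorem jc_const {f : Polynomial K}
    (hinf : {c : k | f.eval (algebraMap k K c) ∈ Set.range (algebraMap k K)}.Infinite) :
    ∃ g : Polynomial k, f = g.map (algebraMap k K) := by
  classical
  obtain ⟨s, hs, hcard⟩ := Set.Infinite.exists_subset_card_eq hinf (f.natDegree + 1)
  have hv : Set.InjOn (algebraMap k K) (s : Set k) := (algebraMap k K).injective.injOn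
  have hex : ∀ c : k, c ∈ s → ∃ r : k, algebraMap k K r = f.eval (algebraMap k K c) := fun c hc => hs hc
  choose! r hr using hex
  have hid : Set.InjOn (id : k → k) (s : Set k) := Function.injective_id.injOn
  refine ⟨Lagrange.interpolate s id r, ?_⟩
  refine Polynomial.eq_of_degrees_lt_of_eval_index_eq s hv ?_ ?_ ?_
  · rw [hcard]
    refine lt_of_le_of_lt Polynomial.degree_le_natDegree ?_
    exact_mod_cast Nat.lt_succ_self _
  · refine lt_of_le_of_lt Polynomial.degree_map_le ?_
    exact Lagrange.degree_interpolate_lt r hid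
  · intro c hc
    rw [← hr c hc, Polynomial.eval_map, Polynomial.eval₂_at_apply]
    congr 1
    exact (Lagrange.eval_interpolate_at_node r hid hc).symm

theorem inf_ov [CharZero k] [IsAlgClosed k] (h : Hyp X) {t : Ω} (ht : IsIntegral K t) (htr : Transcendental k t) :
    {z : X.P | ∃ P : PDiv X, P.η = z ∧ Ov P.p t}.Infinite := by
  classical
  set f := minpoly K t with hfdef
  have hf : f.Monic := minpoly.monic ht
  have hne : ∀ c : k, f.eval (algebraMap k K c) ≠ 0 := by
    intro c hc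
    have h1 := minpoly.root ht hc
    apply htr
    rw [← h1, ← IsScalarTower.algebraMap_apply k K Ω]
    exact isAlgebraic_algebraMap c
  have hbad : {c : k | f.eval (algebraMap k K c) ∈ Set.range (algebraMap k K)}.Finite := by
    by_contra hinf
    obtain ⟨g, hg⟩ := jc_const hinf
    apply htr
    refine ⟨g, ?_, ?_⟩
    · rintro rfl
      rw [Polynomial.map_zero] at hg
      exact hf.ne_zero hg
    · have h1 : Polynomial.aeval t f = 0 := minpoly.aeval K t
      rw [hg, Polynomial.aeval_map_algebraMap] at h1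
      exact h1
  have hP : ∀ c : k, f.eval (algebraMap k K c) ∉ Set.range (algebraMap k K) →
      ∃ P : PDiv X, 0 < P.p.ord (f.eval (algebraMap k K c)) := by
    intro c hc
    obtain ⟨M, hM1, -, hM2⟩ := polar h (f.eval (algebraMap k K c))⁻¹ (inv_ne_zero (hne c))
    have hneff : ¬ Effective M⁻¹ := by
      intro hE
      obtain ⟨b, hb⟩ := jc_glob h (ζ := (f.eval (algebraMap k K c))⁻¹) (fun x =>
        (polar_mem M _ x (hM2 x)).2 (by
          have h3 := hE x
          rwa [inv_eq] at h3))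
      apply hc
      refine ⟨b⁻¹, ?_⟩
      rw [map_inv₀, hb, inv_inv]
    obtain ⟨P, hP⟩ := exists_pdiv h M hM1 hneff
    refine ⟨P, ?_⟩
    by_contra hcon
    have h1 : 0 ≤ P.p.ord (f.eval (algebraMap k K c))⁻¹ := by
      rw [ord_inv]
      omega
    have h2 : (f.eval (algebraMap k K c))⁻¹ ∈ X.O P.η :=
      (P.mem _).2 ((ord_nonneg P.p _ (inv_ne_zero (hne c))).1 h1)
    have h4 := (polar_mem M _ P.η (hM2 P.η)).1 h2
    have h5 := (ord_nonneg P.p _ (inv_ne_zero (M.ne P.η))).2 ((P.mem _).1 h4)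
    rw [ord_inv] at h5
    omega
  intro hfin
  have hfib : ∀ z : X.P, {c : k | ∃ P : PDiv X, P.η = z ∧ 0 < P.p.ord (f.eval (algebraMap k K c))}.Finite := by
    intro z
    by_cases hz : ∃ P : PDiv X, P.η = z
    · obtain ⟨P, hPz⟩ := hz
      refine (jc_fin P.p hf hne).subset ?_
      rintro c ⟨Q, hQ, hc⟩
      rw [jc_place Q P (hQ.trans hPz.symm)] at hc
      exact hc
    · refine Set.finite_empty.subset ?_
      rintro c ⟨Q, hQ, hc⟩
      exact hz ⟨Q, hQ⟩
  have hun := hfin.biUnion (t := fun z => {c : k | ∃ P : PDiv X, P.η = z ∧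
    0 < P.p.ord (f.eval (algebraMap k K c))}) fun z _ => hfib z
  refine (hbad.union hun).not_infinite ?_
  have huniv : ({c : k | f.eval (algebraMap k K c) ∈ Set.range (algebraMap k K)} ∪
      ⋃ z ∈ {z : X.P | ∃ P : PDiv X, P.η = z ∧ Ov P.p t}, {c : k | ∃ P : PDiv X, P.η = z ∧
        0 < P.p.ord (f.eval (algebraMap k K c))}) = Set.univ := by
    refine Set.eq_univ_of_forall fun c => ?_
    by_cases hc : f.eval (algebraMap k K c) ∈ Set.range (algebraMap k K)
    · exact Or.inl hc
    · obtain ⟨P, hPc⟩ := hP c hc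
      refine Or.inr ?_
      simp only [Set.mem_iUnion]
      exact ⟨P.η, ⟨P, rfl, ov_of P.p ht c hPc⟩, P, rfl, hPc⟩
  rw [huniv]
  have : Infinite k := IsAlgClosed.instInfinite
  exact Set.infinite_univ

end Pool.Agent.H61.ZO
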