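import Pool.Agent.H20.ZO.Def
import Pool.Agent.H39.TQ.Itf
import Pool.Agent.H83.TU.RA

/-!
# [H61 ZO Def] THEOREM Z0 (MP_e49dc9_ag): definitions for JJ and F0C (text: think 1223)

* `RelT t L u`: any `u + 1` elements of `L ⊆ K` satisfy a linear relation over `k[t]`, `t` in a field `Ω` over `K`.
* `Ov p t`: there is a valuation ring of `Ω` over the place `p` of `K` with `t - c` in its maximal ideal, for some `c ∈ k`.
* `Tau q V τ`: `V` a valuation ring of `Ω` over the place `q` of `K / F`, `τ a` the element of `Ω`, algebraic over `F`, with the same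
  residue as `a` modulo the maximal ideal of `V`; `a - τ a` is divisible in `V` by every element of positive order of `K`.
-/

set_option autoImplicit false

namespace Pool.Agent.H61.ZO

open Pool.Agent.H54.RV Pool.Agent.H83.TU Pool.Agent.H83.TK Pool.Agent.H20.TD Pool.Agent.H20.TP Pool.Agent.H20.ZO

variable {k K Ω : Type} [Field k] [Field K] [Algebra k K] [Field Ω] [Algebra k Ω] [Algebra K Ω]

/-- any `u + 1` elements of `L` satisfy a linear relation with coefficients in `k[t]` -/
def RelT (t : Ω) (L : Set K) (u : ℕ) : Prop :=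
  ∀ f : Fin (u + 1) → K, (∀ i, f i ∈ L) → ∃ p : Fin (u + 1) → Polynomial k, p ≠ 0 ∧
    ∑ i, Polynomial.aeval t (p i) * algebraMap K Ω (f i) = 0

/-- a valuation ring of `Ω` over the place `p`, with `t - c` in its maximal ideal -/
def Ov (p : Place k K) (t : Ω) : Prop :=
  ∃ (V : ValuationSubring Ω) (c : k), (∀ a : K, algebraMap K Ω a ∈ V ↔ a ∈ p.R) ∧ (t - algebraMap k Ω c)⁻¹ ∉ V

variable {X : Mod k K}

/-- the valuation ring `V` of `Ω` over `q` and the coefficient map `τ` -/
structure Tau {F : IntermediateField k K} (q : Place F K) (V : ValuationSubring Ω) (τ : q.R →+* Ω) : Prop where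
  mem : ∀ a : K, algebraMap K Ω a ∈ V ↔ a ∈ q.R
  alg : ∀ b : Ω, (∃ p : Polynomial F, p ≠ 0 ∧ p.eval₂ ((algebraMap K Ω).comp (algebraMap F K)) b = 0) → b ∈ V
  talg : ∀ a : q.R, ∃ p : Polynomial F, p ≠ 0 ∧ p.eval₂ ((algebraMap K Ω).comp (algebraMap F K)) (τ a) = 0
  tF : ∀ a : F, τ ⟨algebraMap F K a, q.mem a⟩ = algebraMap K Ω (algebraMap F K a)
  ker : ∀ a : q.R, τ a = 0 ↔ ¬ IsUnit a
  div : ∀ (a : q.R) (π : K), π ≠ 0 → q.ord π = 1 → (algebraMap K Ω a - τ a) / algebraMap K Ω π ∈ V

end Pool.Agent.H61.ZO
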