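import Pool.Agent.H61.ZO.SE
import Pool.Agent.H20.ZO.Pen
import Pool.Agent.H32.TU.RFP
import Pool.Agent.H32.ZO.Hod
import Pool.Agent.H20.TU.GRO

/-!
# [H61 ZO FC] THEOREM Z0 (MP_e49dc9_ag): the class `F` from a covering family of curves

`f0c`: the pole divisor `M` of an element `φ` of `F' - k` is a class `F`.
PROOF. `trdeg F' / k = 2` (`trdeg K / k = 3`), so there is `φ ∈ F'` transcendental over `k`.  `polar`: `M` effective, `φ ∈ secL M 1`, `a φ ∈ O x ↔ a / M.eq x ∈ O x`: at a prime divisor `P` (`ord` of `M.eq`) `= max (0, - ord φ)`: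
one of `M.eq P.η`, `φ M.eq P.η` is a unit.  So `nn`: for a prime `S` one of the sections `1`, `φ` of `M` does not vanish at `P.η`, the divisor of this section is a sum of primes `≠ S`, `T(N,M,S) ≥ 0`
(`N` nef; as in H24/VP/PosB or H20/TP/Srf).  `RF M = 0`: for a place `q` of `K / F'` with `P` from `no_deep`: `ord_q (M.eq P.η) = max (0, - ord_q φ) = 0` since `φ, φ⁻¹ ∈ F' ⊆ q.R`.  `sq`: `T(N,M,M) ≥ 0` by `nn` (`M` is a
sum of primes).  If `T(N,M,M) > 0`: `u = M ^ i A⁻¹` has
`T(N,u,u) > 0`, `T(N,u,A) > 0` for `i` large; `glb`: `u ^ j N ^ n` has a section, so `0 ≤ RF = - j RF A < 0`.  `pos`: `T(N,A,M) ≥ 0`; if `= 0`: `pen`, `h0 M ≤ 1`.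
-/

set_option autoImplicit false

namespace Pool.Agent.H61.ZO

open Pool.Agent.H54.RV Pool.Agent.H83.TU Pool.Agent.H83.TK Pool.Agent.H20.TD Pool.Agent.H20.TP Pool.Agent.H20.ZO Pool.Agent.H39.TQ
open Pool.Agent.H24.VP (RR chS chi)

variable {k K : Type} [Field k] [Field K] [Algebra k K] {X : Mod k K}
  {T : Cart X → Cart X → Cart X → ℝ} {l : Cart X → ℝ} {c : ℝ}

/-- a function with values `≥ 0` on the primes is `≥ 0` on the divisors with sections -/
private theorem sum_nn {φ : Cart X → ℝ} (hprm : ∀ (P : PDiv X) (S : Cart X), SPr X P.η S → 0 ≤ φ S)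
    (Ls : List (PDiv X × Cart X)) (hL : ∀ p ∈ Ls, SPr X p.1.η p.2) : 0 ≤ (Ls.map fun p => φ p.2).sum := by
  induction Ls with
  | nil => simp
  | cons p Ls ih =>
    rw [List.map_cons, List.sum_cons]
    have h1 := hprm p.1 p.2 (hL p List.mem_cons_self)
    have h2 := ih fun q hq => hL q (List.mem_cons_of_mem _ hq)
    linarith

private theorem nn_sec [CharZero k] [T0Space X.P] (h : Hyp X) (hr : RR T l c) {U V : Cart X}
    (hprm : ∀ (P : PDiv X) (S : Cart X), SPr X P.η S → 0 ≤ T U V S) {W : Cart X} (hW : 0 < h0 W 1) :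
    0 ≤ T U V W := by
  obtain ⟨Ls, h1, h2⟩ := Pool.Agent.H32.ZO.eff_prm h hr hW
  rw [h2 U V]
  exact sum_nn (φ := fun S => T U V S) hprm Ls h1

private theorem h0_pos_of {W : Cart X} {s : K} (hGF : GF X) (hs : s ∈ secL W 1) (h0' : s ≠ 0) : 0 < h0 W 1 := by
  have := hGF.1 W 1
  unfold h0
  rw [Module.finrank_pos_iff]
  exact ⟨⟨⟨s, hs⟩, 0, fun h => h0' (congrArg Subtype.val h)⟩⟩

private theorem prod_un {z : X.P} (Ls : List (PDiv X × Cart X)) (hL : ∀ p ∈ Ls, SPr X p.1.η p.2)
    (h : Un (X.O z) ((Ls.map Prod.snd).prod.eq z)) : ∀ p ∈ Ls, Un (X.O z) (p.2.eq z) := by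
  have hO : ∀ Ls : List (PDiv X × Cart X), (∀ p ∈ Ls, SPr X p.1.η p.2) → (Ls.map Prod.snd).prod.eq z ∈ X.O z := by
    intro Ls hL
    induction Ls with
    | nil =>
      rw [List.map_nil, List.prod_nil, one_eq]
      exact one_mem _
    | cons p Ls ih =>
      rw [List.map_cons, List.prod_cons, mul_eq]
      exact mul_mem ((hL p List.mem_cons_self).eff z) (ih fun q hq => hL q (List.mem_cons_of_mem _ hq))
  induction Ls with
  | nil => exact fun p hp => absurd hp List.not_mem_nil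
  | cons q Ls ih =>
    have hL' : ∀ p ∈ Ls, SPr X p.1.η p.2 := fun p hp => hL p (List.mem_cons_of_mem _ hp)
    rw [List.map_cons, List.prod_cons, mul_eq, un_mul_iff ((hL q List.mem_cons_self).eff z) (hO Ls hL')] at h
    intro p hp
    rcases List.mem_cons.1 hp with h1 | h1
    · rw [h1]
      exact h.1
    · exact ih hL' h.2 p h1

/-- an effective divisor whose equation is a unit at the prime divisor `S` -/
private theorem nn_unit [CharZero k] [T0Space X.P] (h : Hyp X) (hr : RR T l c) {A N : Cart X} (hZ : Zn T l A N)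
    {P : PDiv X} {S E : Cart X} (hS : SPr X P.η S) (hE : Effective E) (hun : Un (X.O P.η) (E.eq P.η)) :
    0 ≤ T N E S := by
  obtain ⟨Ls, U, h1, h2, h3, h4⟩ := Pool.Agent.H24.VP.fac_eff h hr hE
  have h5 : Un (X.O P.η) ((Ls.map Prod.snd).prod.eq P.η) := by
    rw [h4, mul_eq] at hun
    have h6 : Un (X.O P.η) (U.eq P.η) := ⟨U.ne _, h2 _, by
      have := h3 P.η
      rwa [inv_eq] at this⟩
    have h7 := un_mul hun (un_inv h6)
    rwa [mul_inv_cancel_right₀ (U.ne _)] at h7
  have h6 := prod_un Ls h1 h5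
  have h7 : ∀ Ls : List (PDiv X × Cart X), (∀ p ∈ Ls, SPr X p.1.η p.2) → (∀ p ∈ Ls, Un (X.O P.η) (p.2.eq P.η)) →
      0 ≤ T N (Ls.map Prod.snd).prod S := by
    intro Ls h1 h6
    induction Ls with
    | nil =>
      rw [List.map_nil, List.prod_nil, hr.tri.s12, hr.tri.one]
    | cons p Ls ih =>
      rw [List.map_cons, List.prod_cons, hr.tri.s12, hr.tri.add, hr.tri.s12 p.2 N, hr.tri.s12 _ N]
      have h8 := ih (fun q hq => h1 q (List.mem_cons_of_mem _ hq)) fun q hq => h6 q (List.mem_cons_of_mem _ hq)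
      have h9 : p.1.η ≠ P.η := by
        intro h10
        have h11 := (h1 p List.mem_cons_self).nun P.η (by rw [h10])
        rw [h10] at h11
        exact h11 (h6 p List.mem_cons_self)
      have h10 := Pool.Agent.H32.ZO.nn_twoN h hr hZ.nef p.1 P (h1 p List.mem_cons_self) hS h9
      linarith
  have h8 : T N U S = 0 := by
    rw [hr.tri.s12]
    exact Pool.Agent.H24.VP.triv_T h hr h2 h3 N S
  rw [h4, hr.tri.s12, hr.tri.add, hr.tri.s12 _ N, hr.tri.s12 U N, h8, add_zero]
  exact h7 Ls h1 h6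

private theorem ex_phi [CharZero k] (h : Hyp X) (F' : IntermediateField k K) (htr : Algebra.trdeg F' K = 1) :
    ∃ φ ∈ F', Transcendental k φ := by
  by_contra hcon
  push Not at hcon
  have h1 : Algebra.IsAlgebraic k F' := by
    constructor
    intro x
    have h2 := hcon x.1 x.2
    have h3 : IsAlgebraic k x.1 := by
      by_contra h4
      exact h2 h4
    exact (isAlgebraic_algebraMap_iff (algebraMap F' K).injective).1 h3
  have h2 := _root_.trdeg_add_eq k F' (A := K)
  have h3 : Algebra.trdeg k F' = 0 := _root_.trdeg_eq_zero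
  rw [htr, h.tr, h3, zero_add] at h2
  have h4 : (1 : ℕ) = 3 := by exact_mod_cast h2
  omega

theorem f0c [CharZero k] [IsAlgClosed k] [T0Space X.P] (h : Hyp X) (hr : RR T l c) {A N : Cart X} (hZ : Zn T l A N)
    (hfin : Finb T A N) (F' : IntermediateField k K) (htr : Algebra.trdeg F' K = 1) (hc : Clo F')
    (hR : RF h.var h.gen F' N = 0) : ∃ F, Fcl T A N F ∧ Effective F ∧ RF h.var h.gen F' F = 0 := by
  obtain ⟨φ, hφF, hφ⟩ := ex_phi h F' htr
  have hφ0 : φ ≠ 0 := by
    rintro rfl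
    exact hφ isAlgebraic_zero
  obtain ⟨M, hM, hs, hpol⟩ := polar h φ hφ0
  have hone : (1 : K) ∈ secL M 1 := fun x => by
    rw [pow_one, one_mul]
    exact hM x
  have hGF := Pool.Agent.H20.TU.gf h.var h.gen h.tr
  have hpos : 0 < h0 M 1 := h0_pos_of hGF hone one_ne_zero
  -- one of the two sections is a unit at a given prime divisor
  have hu : ∀ P : PDiv X, (φ ∈ X.O P.η → Un (X.O P.η) (M.eq P.η)) ∧
      (φ ∉ X.O P.η → Un (X.O P.η) (φ * M.eq P.η)) := by
    intro P
    constructor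
    · intro h1
      have h2 := (hpol P.η 1 (one_mem _)).1 (by rwa [one_mul])
      rw [one_div] at h2
      exact ⟨M.ne _, hM _, h2⟩
    · intro h1
      have h2 : φ⁻¹ ∈ X.O P.η := by
        rw [P.mem] at h1 ⊢
        rcases P.p.R.mem_or_inv_mem φ with h3 | h3
        · exact absurd h3 h1
        · exact h3
      have h3 := (hpol P.η _ h2).1 (by
        rw [inv_mul_cancel₀ hφ0]
        exact one_mem _)
      refine ⟨mul_ne_zero hφ0 (M.ne _), ?_, ?_⟩
      · have := hs P.η
        rwa [pow_one] at this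
      · rw [mul_inv, ← div_eq_mul_inv]
        exact h3
  have hnn : ∀ (P : PDiv X) (S : Cart X), SPr X P.η S → 0 ≤ T N M S := by
    intro P S hS
    by_cases h1 : φ ∈ X.O P.η
    · exact nn_unit h hr hZ hS hM ((hu P).1 h1)
    · have h2 : Effective (prin X φ hφ0 * M) := by
        intro x
        have := hs x
        rw [pow_one] at this
        exact this
      have h3 := nn_unit h hr hZ hS h2 ((hu P).2 h1)
      have h4 : T N (prin X φ hφ0 * M) S = T N M S := by
        rw [hr.tri.s12, hr.tri.add, hr.tri.s12 M N]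
        have h5 : T (prin X φ hφ0) N S = 0 := Pool.Agent.H24.VP.numz_T h hr (numz_prin φ hφ0) N S
        rw [h5, zero_add]
      rwa [h4] at h3
  have hRM : RF h.var h.gen F' M = 0 := by
    unfold RF
    rw [← finsum_zero (α := Place F' K)]
    refine finsum_congr fun q => ?_
    obtain ⟨P, hP, hPq⟩ := no_deep h hr hZ hfin F' htr hc hR q
    have h1 : φ ∈ X.O P.η := by
      rw [P.mem, ← hPq]
      exact q.mem ⟨φ, hφF⟩
    have h2 := (hu P).1 h1
    rw [← hP]
    have h3 : q.ord (M.eq P.η) = 0 := by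
      rw [ord_eq_zero q _ h2.1]
      exact ⟨(hPq _).2 ((P.mem _).1 h2.2.1), (hPq _).2 ((P.mem _).1 h2.2.2)⟩
    rw [h3, zero_mul]
  have hMA : 0 < T N A M := by
    have h1 := nn_sec h hr (U := N) (V := A) (fun P S hS => Pool.Agent.H24.VP.nn_prm h hr hZ.nef hZ.amp P hS) hpos
    rcases h1.lt_or_eq with h2 | h2
    · exact h2
    · exfalso
      have h3 := pen h hr hZ hfin h2.symm
      have := hGF.1 M 1
      have h4 : LinearIndependent k ![(⟨1, hone⟩ : secL M 1), ⟨φ, hs⟩] := by
        rw [LinearIndependent.pair_iff]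
        intro a b hab
        have h5 : a • (1 : K) + b • φ = 0 := congrArg Subtype.val hab
        by_cases hb : b = 0
        · rw [hb, zero_smul, add_zero] at h5
          rw [smul_eq_zero] at h5
          exact ⟨h5.resolve_right one_ne_zero, hb⟩
        · exfalso
          apply hφ
          have h6 : φ = algebraMap k K (-(a / b)) := by
            rw [Algebra.smul_def, Algebra.smul_def, mul_one] at h5
            have h7 : algebraMap k K b ≠ 0 := by
              rwa [Ne, map_eq_zero]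
            rw [map_neg, map_div₀]
            field_simp
            linear_combination h5
          rw [h6]
          exact isAlgebraic_algebraMap _
      have h5 := h4.fintype_card_le_finrank
      rw [Fintype.card_fin] at h5
      unfold h0 at h3
      omega
  have hMM : T N M M = 0 := by
    have h1 := nn_sec h hr (U := N) (V := M) hnn hpos
    rcases h1.lt_or_eq with h2 | h2
    · exfalso
      obtain ⟨i, hi1, hi2⟩ : ∃ i : ℕ, T N A A < i * T N A M ∧ 2 * T N A M < i * T N M M := by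
        obtain ⟨i, hi⟩ := exists_nat_gt (max (T N A A / T N A M) (2 * T N A M / T N M M))
        exact ⟨i, (div_lt_iff₀ hMA).1 ((le_max_left _ _).trans_lt hi), (div_lt_iff₀ h2).1 ((le_max_right _ _).trans_lt hi)⟩
      have r : ∀ U V : Cart X, T N U V = T U V N := fun U V => by rw [hr.tri.s12, hr.tri.s23]
      have h3 : T N (M ^ i * A⁻¹) A = i * T N A M - T N A A := by
        rw [hr.tri.s12, hr.tri.add, hr.tri.pow, hr.tri.inv, hr.tri.s12 M N, hr.tri.s12 A N, hr.tri.s23 N M A]
        ring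
      have h4 : T N (M ^ i * A⁻¹) (M ^ i * A⁻¹) = i ^ 2 * T N M M - 2 * i * T N A M + T N A A := by
        rw [hr.tri.add3, hr.tri.pow3, hr.tri.inv3, h3, hr.tri.s12, hr.tri.add, hr.tri.pow, hr.tri.inv,
          hr.tri.s12 M N, hr.tri.s12 A N]
        ring
      obtain ⟨j₀, hj₀⟩ := glb h hr hZ (u := M ^ i * A⁻¹) (by rw [h3]; linarith)
      obtain ⟨C, n₀, hn⟩ := hj₀ (j₀ + 1) (Nat.le_succ _)
      obtain ⟨n, hn1, hn2⟩ : ∃ n : ℕ, n₀ ≤ n ∧ C < n * l N := by
        obtain ⟨n, hn⟩ := exists_nat_gt (max (n₀ : ℝ) (C / l N))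
        exact ⟨n, by exact_mod_cast (le_max_left _ _).trans hn.le, (div_lt_iff₀ hZ.lpos).1 ((le_max_right _ _).trans_lt hn)⟩
      have h5 : 0 ≤ T N (M ^ i * A⁻¹) (M ^ i * A⁻¹) := by
        rw [h4]
        have h6 : (0 : ℝ) ≤ i := Nat.cast_nonneg i
        nlinarith [hZ.pos]
      have h6 := hn n hn1
      have h7 : (0 : ℝ) < h0 ((M ^ i * A⁻¹) ^ (j₀ + 1) * N ^ n) 1 := by
        refine lt_of_lt_of_le ?_ h6
        have h8 : (0 : ℝ) ≤ n := Nat.cast_nonneg n
        have h9 : 0 ≤ n * (((j₀ + 1 : ℕ) : ℝ) ^ 2 * T N (M ^ i * A⁻¹) (M ^ i * A⁻¹) / 2) := by positivity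
        nlinarith
      have h8 : 0 < h0 ((M ^ i * A⁻¹) ^ (j₀ + 1) * N ^ n) 1 := by exact_mod_cast h7
      obtain ⟨s, hs0, hs1⟩ := Pool.Agent.H20.TP.ex_sec h8
      have h9 : Effective (prin X s hs0 * ((M ^ i * A⁻¹) ^ (j₀ + 1) * N ^ n)) := by
        intro x
        have := hs1 x
        rw [pow_one] at this
        exact this
      have h10 := Pool.Agent.H32.TU.rf_eff h.var h.gen F' _ h9
      rw [Pool.Agent.H32.TU.rf_mul h.var h.gen F' htr, Pool.Agent.H32.TU.rf_prin h.var h.gen F' htr,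
        Pool.Agent.H32.TU.rf_mul h.var h.gen F' htr, Pool.Agent.H32.TU.rf_pow h.var h.gen F' htr,
        Pool.Agent.H32.TU.rf_mul h.var h.gen F' htr, Pool.Agent.H32.TU.rf_pow h.var h.gen F' htr,
        Pool.Agent.H32.TU.rf_inv h.var h.gen F' htr, Pool.Agent.H32.TU.rf_pow h.var h.gen F' htr, hRM, hR] at h10
      have h11 := Pool.Agent.H32.TU.rf_amp h.var h.gen F' htr A hZ.amp
      have h12 : (0 : ℤ) < ((j₀ + 1 : ℕ) : ℤ) := by positivity
      nlinarith
    · exact h2.symm
  exact ⟨M, ⟨hnn, hMM, hMA⟩, hM, hRM⟩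

end Pool.Agent.H61.ZO
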