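import Pool.Agent.H61.ZO.Def

/-!
# [H61 ZO JA] THEOREM Z0 (MP_e49dc9_ag), JJ: a valuation ring over a zero of the norm of `t - c`

`ov_of`: `P` the minimal polynomial of `t` over `K`; if `P(c)` has positive order at the place `p` then `Ov p t`.
PROOF. `O = p.R`, `x = t - c`, `w = x⁻¹` (`x ≠ 0` because `P(c) ≠ 0`).  `minpoly.sub_algebraMap`: the minimal polynomial of `x` has constant coefficient `P(c)`, so (`K⟮x⟯`, power basis,
`Algebra.PowerBasis.norm_gen_eq_coeff_zero_minpoly`) the norm of `x` is `± P(c)`, the norm of `w` is `± P(c)⁻¹`, not in `O`; so `w` is not integral over `O` (`Algebra.isIntegral_norm`, `O` is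
integrally closed in `K`).  In `O[x]` the ideal `(𝔪, x)` is not `1`: `1 = a + x g(x)` with `a ∈ 𝔪 O[x]`, i.e. `1 - a₀ = ∑_(i ≥ 1) aᵢ x ^ i` with `a₀ ∈ 𝔪`, `aᵢ ∈ O`, multiply by `w ^ n / (1 - a₀)`:
`w` is integral over `O`.  So there is a maximal ideal `M ∋ x` of `O[x]` with `M ∩ O = 𝔪`; the local ring `O[x]_M` (as a subring of `Ω`: `LocalSubring.ofPrime`) is dominated by a valuation ring `V`
(`LocalSubring.exists_le_valuationSubring` or similar): `V ∩ K ⊇ O`, `𝔪 ⊆ 𝔪_V`, so `V ∩ K = O` (`a ∉ O`: `a⁻¹ ∈ 𝔪`), `x ∈ 𝔪_V`: `w ∉ V`.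
-/

set_option autoImplicit false

namespace Pool.Agent.H61.ZO

open Pool.Agent.H54.RV Pool.Agent.H83.TU

variable {k K Ω : Type} [Field k] [Field K] [Algebra k K] [Field Ω] [Algebra k Ω] [Algebra K Ω] [IsScalarTower k K Ω]

open IntermediateField in
/-- the inverse of `x` is not integral over the valuation ring `O`, if the inverse of the constant coefficient of the minimal
polynomial is not in `O` -/
private theorem ja_int (O : ValuationSubring K) [Algebra O Ω] [IsScalarTower O K Ω] {x : Ω} (hx : IsIntegral K x)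
    (hO : ((minpoly K x).coeff 0)⁻¹ ∉ O) : ¬ IsIntegral O x⁻¹ := by
  intro hw
  have : FiniteDimensional K K⟮x⟯ := adjoin.finiteDimensional hx
  have h0 : (minpoly K x).coeff 0 ≠ 0 := by
    intro h
    rw [h, inv_zero] at hO
    exact hO O.zero_mem
  have hx0 : x ≠ 0 := fun h => h0 ((minpoly.coeff_zero_eq_zero hx).2 h)
  set g : K⟮x⟯ := AdjoinSimple.gen K x with hg
  have hgx : algebraMap K⟮x⟯ Ω g = x := AdjoinSimple.algebraMap_gen K x
  have hg0 : g ≠ 0 := by
    intro h
    rw [h, map_zero] at hgx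
    exact hx0 hgx.symm
  have hst : IsScalarTower O K⟮x⟯ Ω := IsScalarTower.of_algebraMap_eq fun r => by
    rw [IsScalarTower.algebraMap_apply O K Ω, IsScalarTower.algebraMap_apply O K K⟮x⟯,
      ← IsScalarTower.algebraMap_apply K K⟮x⟯ Ω]
  have h1 : IsIntegral O g⁻¹ := by
    rw [← isIntegral_algebraMap_iff (algebraMap K⟮x⟯ Ω).injective, map_inv₀, hgx]
    exact hw
  have h2 : IsIntegral O (Algebra.norm K g⁻¹) := Algebra.isIntegral_norm K h1
  obtain ⟨y, hy⟩ := IsIntegrallyClosed.isIntegral_iff.1 h2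
  have h3 : Algebra.norm K g = (-1) ^ (adjoin.powerBasis hx).dim * (minpoly K x).coeff 0 := by
    have h4 := Algebra.PowerBasis.norm_gen_eq_coeff_zero_minpoly (adjoin.powerBasis hx)
    rw [adjoin.powerBasis_gen, minpoly_gen] at h4
    exact h4
  have h5 : Algebra.norm K g * Algebra.norm K g⁻¹ = 1 := by
    rw [← map_mul, mul_inv_cancel₀ hg0, map_one]
  apply hO
  have h6 : ((minpoly K x).coeff 0)⁻¹ = (-1) ^ (adjoin.powerBasis hx).dim * Algebra.norm K g⁻¹ := by
    rw [h3] at h5
    refine inv_eq_of_mul_eq_one_right ?_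
    linear_combination h5
  rw [h6, ← hy]
  exact O.mul_mem _ _ (pow_mem (O.neg_mem _ O.one_mem) _) y.2

theorem ov_of (p : Place k K) {t : Ω} (ht : IsIntegral K t) (c : k)
    (hc : 0 < p.ord ((minpoly K t).eval (algebraMap k K c))) : Ov p t := by
  classical
  have hP0 : (minpoly K t).eval (algebraMap k K c) ≠ 0 := by
    intro h
    rw [h] at hc
    have h1 : p.ord (0 : K) = 0 := by
      unfold Place.ord
      simp
    rw [h1] at hc
    exact lt_irrefl _ hc
  have hPi : ((minpoly K t).eval (algebraMap k K c))⁻¹ ∉ p.R := by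
    intro h
    have h1 := (ord_nonneg p _ (inv_ne_zero hP0)).2 h
    rw [ord_inv] at h1
    omega
  set x : Ω := t - algebraMap k Ω c with hxd
  have hxe : x = t - algebraMap K Ω (algebraMap k K c) := by
    rw [hxd, IsScalarTower.algebraMap_apply k K Ω c]
  have hx : IsIntegral K x := by
    rw [hxe]
    exact ht.sub isIntegral_algebraMap
  have hco : (minpoly K x).coeff 0 = (minpoly K t).eval (algebraMap k K c) := by
    rw [hxe, minpoly.sub_algebraMap, Polynomial.coeff_zero_eq_eval_zero, Polynomial.eval_comp]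
    simp
  have hx0 : x ≠ 0 := by
    intro h
    apply hP0
    rw [← hco]
    exact (minpoly.coeff_zero_eq_zero hx).2 h
  let _ : Algebra p.R Ω := ((algebraMap K Ω).comp (algebraMap p.R K)).toAlgebra
  have : IsScalarTower p.R K Ω := IsScalarTower.of_algebraMap_eq fun _ => rfl
  have hnot : ¬ IsIntegral p.R x⁻¹ := ja_int p.R hx (by rwa [hco])
  let _ := invertibleOfNonzero hx0
  have hJ : (IsLocalRing.maximalIdeal p.R).map (algebraMap p.R (Algebra.adjoin p.R {x})) ⊔
      Ideal.span {(⟨x, Algebra.subset_adjoin rfl⟩ : Algebra.adjoin p.R {x})} ≠ ⊤ := by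
    intro h
    obtain ⟨q, hq, hqx⟩ := Algebra.exists_aeval_invOf_eq_zero_of_idealMap_adjoin_sup_span_eq_top x _
      (IsLocalRing.maximalIdeal.isMaximal p.R).ne_top h
    have H : IsUnit q.leadingCoeff := by
      by_contra h1
      have h2 : q.leadingCoeff ∈ IsLocalRing.maximalIdeal p.R := h1
      have h3 := Ideal.sub_mem _ h2 hq
      rw [sub_sub_cancel] at h3
      exact (IsLocalRing.maximalIdeal.isMaximal p.R).ne_top ((Ideal.eq_top_iff_one _).2 h3)
    apply hnot
    refine ⟨Polynomial.C H.unit⁻¹.1 * q, by simp [Polynomial.Monic], ?_⟩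
    rw [invOf_eq_inv, Polynomial.aeval_def] at hqx
    rw [Polynomial.eval₂_mul, hqx, mul_zero]
  obtain ⟨V, hV1, hV2⟩ := Ideal.image_subset_nonunits_valuationSubring
    (A := (Algebra.adjoin p.R {x}).toSubring) _ hJ
  refine ⟨V, c, fun a => ⟨fun h => ?_, fun ha => hV1 ((Algebra.adjoin p.R {x}).algebraMap_mem ⟨a, ha⟩)⟩, ?_⟩
  · by_contra ha
    have hai : a⁻¹ ∈ p.R := (p.R.mem_or_inv_mem a).resolve_left ha
    have ha0 : a ≠ 0 := by
      rintro rfl
      exact ha p.R.zero_mem
    have hm : (⟨a⁻¹, hai⟩ : p.R) ∈ IsLocalRing.maximalIdeal p.R := by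
      rw [IsLocalRing.mem_maximalIdeal, mem_nonunits_iff]
      intro hu
      obtain ⟨b, hb⟩ := isUnit_iff_exists_inv.1 hu
      have h1 : a⁻¹ * (b : K) = 1 := congrArg Subtype.val hb
      have h2 : (b : K) = a := by
        field_simp at h1
        exact h1
      exact ha (h2 ▸ b.2)
    have h1 : algebraMap K Ω a⁻¹ ∈ V.nonunits :=
      hV2 ⟨_, Ideal.mem_sup_left (Ideal.mem_map_of_mem _ hm), rfl⟩
    rw [map_inv₀, V.inv_mem_nonunits_iff] at h1
    rcases h1 with h1 | h1
    · exact ha0 ((algebraMap K Ω).injective (h1.trans (map_zero _).symm))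
    · exact h1 h
  · have h1 : x ∈ V.nonunits := hV2 ⟨_, Ideal.mem_sup_right (Ideal.subset_span rfl), rfl⟩
    rw [V.mem_nonunits_iff_or] at h1
    exact h1.resolve_left hx0

end Pool.Agent.H61.ZO
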