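import Pool.Agent.H20.ZO.JJ
import Pool.Agent.H20.ZO.Mov

/-!
# [H61 ZO JD] THEOREM Z0 (MP_e49dc9_ag): LEMMA JJ (the statement of H20/ZO/JJ.lean)

`jj'`: `V` a space of sections of `L`, `t` algebraic over `K`, transcendental over `k`; any `u + 1` elements of `V` are linearly dependent over `k[t]`; `(m + 1) u < dim V`: infinitely many
prime divisors `S` such that a nonzero section in `V` vanishes `m + 1` times along `S`.
PROOF. `inf_ov`: infinitely many `P` with `Ov P.p t`.  Let `S` be the divisor of `P` (`spr_of_trdeg`, `trdeg_pdiv`, H83/TK/Dim).  `jj_cnt` for `V` (finite dimensional, `gf`), `e = - ord_P (L.eq P.η)`: `s ∈ V` with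
`ord_P (s L.eq P.η) ≥ m + 1`.  `s` is a section of `L (S ^ (m + 1))⁻¹`: induction: if `E` is an effective divisor with `ord_P (E.eq P.η) ≥ 1` then `E S⁻¹` is effective (`div_spr`, H20/ZO/End.lean, or `pdiv_cart`) and
`ord_P ((E S⁻¹).eq P.η) = ord_P (E.eq P.η) - 1` (`S.eq P.η` has order `1`).
-/

set_option autoImplicit false

namespace Pool.Agent.H61.ZO

open Pool.Agent.H54.RV Pool.Agent.H83.TU Pool.Agent.H83.TK Pool.Agent.H20.TD Pool.Agent.H20.TP Pool.Agent.H20.ZO

variable {k K : Type} [Field k] [Field K] [Algebra k K] {X : Mod k K}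

theorem jj' [CharZero k] [IsAlgClosed k] [T0Space X.P] (h : Hyp X) {Ω : Type} [Field Ω] [Algebra K Ω] [Algebra k Ω]
    [IsScalarTower k K Ω] [Algebra.IsAlgebraic K Ω] {t : Ω} (ht : Transcendental k t) {L : Cart X} {V : Submodule k K}
    (hV : V ≤ secL L 1) {u m : ℕ} (hu : RelT (k := k) t (V : Set K) u) (hm : (m + 1) * u < Module.finrank k V) :
    {z : X.P | ∃ P : PDiv X, P.η = z ∧ ∃ S : Cart X, SPr X z S ∧ ∃ s ∈ V, s ≠ 0 ∧
      s ∈ secL (L * (S ^ (m + 1))⁻¹) 1}.Infinite :=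
  Pool.Agent.H20.ZO.jj h (Algebra.IsIntegral.isIntegral t) ht hV hu hm

end Pool.Agent.H61.ZO
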