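import Pool.Agent.H61.ZO.Def

/-!
# [H61 ZO JDef] THEOREM Z0 (MP_e49dc9_ag): jets at a point with coefficients in the residue field

* `resA y`: the residue map of the local ring at `y`, as a homomorphism of `k`-algebras.
* `jm y`: the multiplication `κ(y) ⊗ O y → κ(y)`; `JY y`: its kernel.
-/

set_option autoImplicit false

open scoped TensorProduct

namespace Pool.Agent.H61.ZO

open Pool.Agent.H54.RV Pool.Agent.H83.TU

variable {k K : Type} [Field k] [Field K] [Algebra k K] {X : Mod k K}

/-- the residue map -/
noncomputable def resA (y : X.P) : X.O y →ₐ[k] X.kap y where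
  __ := IsLocalRing.residue (X.O y)
  commutes' _ := rfl

theorem resA_apply (y : X.P) (a : X.O y) : resA y a = X.rs y a := by
  unfold Mod.rs
  rw [dif_pos a.2]
  rfl

/-- the multiplication -/
noncomputable def jm (y : X.P) : X.kap y ⊗[k] X.O y →ₐ[X.kap y] X.kap y :=
  Algebra.TensorProduct.lift (AlgHom.id (X.kap y) (X.kap y)) (resA y) fun _ _ => Commute.all _ _

theorem jm_tmul (y : X.P) (a : X.kap y) (o : X.O y) : jm y (a ⊗ₜ o) = a * resA y o := by
  unfold jm
  rw [Algebra.TensorProduct.lift_tmul]
  rfl

/-- the kernel -/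
noncomputable def JY (y : X.P) : Ideal (X.kap y ⊗[k] X.O y) := RingHom.ker (jm y)

end Pool.Agent.H61.ZO
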