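import Pool.Agent.H61.ZO.JD
import Pool.Agent.H20.ZO.Mov

/-!
# [H61 ZO JE] THEOREM Z0 (MP_e49dc9_ag): JJ against `Finb`

`jj_false`: `T(N,A,L) < m + 1`, `(m + 1) u < h0 L`, any `u + 1` sections of `L` are dependent over `k[t]`: contradiction to `Finb`.
PROOF. As the end of `fin_false` (H20/ZO/End.lean, copy from there: `fun_eff`, `aeff`, `bigeff`, `eff_sec`, `T3_prin`; this file must NOT import H20/ZO/End): `jj'` for `V = secL L 1`: infinitely many primes `S` with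
`(m + 1) T(N,A,S) ≤ T(N,A,L)`, so `T(N,A,S) = 0` (an integer `≥ 0`: `t_int`), and `T(S,A,A) ≤ (m + 1) T(S,A,A) ≤ T(L,A,A)`.
-/

set_option autoImplicit false

namespace Pool.Agent.H61.ZO

open Pool.Agent.H54.RV Pool.Agent.H83.TU Pool.Agent.H83.TK Pool.Agent.H20.TD Pool.Agent.H20.TP Pool.Agent.H20.ZO
open Pool.Agent.H24.VP (RR chS chi)

variable {k K : Type} [Field k] [Field K] [Algebra k K] {X : Mod k K}
  {T : Cart X → Cart X → Cart X → ℝ} {l : Cart X → ℝ} {c : ℝ}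

theorem jj_false [CharZero k] [IsAlgClosed k] [T0Space X.P] (h : Hyp X) (hr : RR T l c) {A N L : Cart X} (hZ : Zn T l A N)
    (hfin : Finb T A N) {Ω : Type} [Field Ω] [Algebra K Ω] [Algebra k Ω] [IsScalarTower k K Ω] [Algebra.IsAlgebraic K Ω]
    {t : Ω} (ht : Transcendental k t) {u m : ℕ} (hrel : RelT (k := k) t (secL L 1 : Set K) u)
    (hm : (m + 1) * u < h0 L 1) (hT : T N A L < m + 1) : False := by
  refine mov_false h hr hZ hfin hT ((jj' h ht (V := secL L 1) le_rfl hrel hm).mono ?_)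
  rintro w ⟨P, hP, S, hS, s, -, hs0, hs⟩
  exact ⟨P, hP, S, hS, s, hs0, hs⟩

end Pool.Agent.H61.ZO
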