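import Pool.Agent.H61.ZO.JDef

/-!
# [H61 ZO SA] THEOREM Z0 (MP_e49dc9_ag), no deep centres: the jets form a finite dimensional space

`fin_jet`: `(κ(y) ⊗ O y) / JY y ^ N` is finite dimensional over `κ(y)` (stated with a finite family which spans modulo `JY y ^ N`).
PROOF. `O y` is essentially of finite type over `k` (a localisation of `X.sec U`, `IsVar.fg`, `IsVar.frac`: `U` affine, `y ∈ U`; the submonoid of the `s ∈ X.sec U` which are units at `y`;
`Algebra.EssFiniteType`), so `B = κ(y) ⊗ O y` is essentially of finite type over `κ(y)` (base change), noetherian.  `J = JY y` is finitely generated, `B / J = κ(y)` (`jm` is onto).  Induction on `N`: `N = 0`: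
`u = 0`.  Step: `e_i` for `N`, `g_j` generators of the ideal `J ^ N` (`Submodule.FG`); every `b ∈ B` is `c + j`, `c = jm b ∈ κ(y)`, `j ∈ J` (`b - (jm b) • 1 ∈ J`); so an element `∑ b_j g_j` of `J ^ N` is `∑ c_j g_j` modulo
`J ^ (N + 1)`: the family `e_i, g_j` spans modulo `J ^ (N + 1)`.
-/

set_option autoImplicit false

open scoped TensorProduct

namespace Pool.Agent.H61.ZO

open Pool.Agent.H54.RV Pool.Agent.H83.TU

variable {k K : Type} [Field k] [Field K] [Algebra k K] {X : Mod k K}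

private theorem ess_O (hX : IsVar X) (y : X.P) : Algebra.EssFiniteType k (X.O y) := by
  obtain ⟨U, hU, hy⟩ := hX.chart y
  have hfg := hX.fg U hU ⟨y, hy⟩
  have hle : X.sec U ≤ X.O y := iInf₂_le y hy
  let _ : Algebra (X.sec U) (X.O y) := (Subalgebra.inclusion hle).toRingHom.toAlgebra
  have : IsScalarTower k (X.sec U) (X.O y) := IsScalarTower.of_algebraMap_eq fun _ => rfl
  obtain ⟨M, hM⟩ : ∃ M : Submonoid (X.sec U), M = (IsUnit.submonoid (X.O y)).comap
      (Subalgebra.inclusion hle).toRingHom := ⟨_, rfl⟩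
  have hmem : ∀ s : X.sec U, s ∈ M ↔ IsUnit (algebraMap (X.sec U) (X.O y) s) := fun s => by
    rw [hM]
    exact Iff.rfl
  have : IsLocalization M (X.O y) := by
    refine ⟨fun s => (hmem s).1 s.2, fun z => ?_, fun {a b} hab => ?_⟩
    · obtain ⟨s, hs, hsu, hzs⟩ := hX.frac U y hU hy z z.2
      refine ⟨(⟨_, hzs⟩, ⟨⟨s, hs⟩, ?_⟩), Subtype.ext rfl⟩
      rw [hmem]
      exact IsUnit.of_mul_eq_one ⟨s⁻¹, hsu.2.2⟩ (Subtype.ext (mul_inv_cancel₀ hsu.1))
    · refine ⟨1, ?_⟩
      have h1 : a = b := Subtype.ext (by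
        have := congrArg (fun z : X.O y => (z : K)) hab
        exact this)
      rw [h1]
  have : Algebra.FiniteType k (X.sec U) := (Subalgebra.fg_iff_finiteType _).1 hfg
  have : Algebra.EssFiniteType (X.sec U) (X.O y) := Algebra.EssFiniteType.of_isLocalization _ M
  exact Algebra.EssFiniteType.comp k (X.sec U) (X.O y)

private theorem fin_gen {κ B : Type} [Field κ] [CommRing B] [Algebra κ B] [IsNoetherianRing B] (φ : B →ₐ[κ] κ)
    (J : Ideal B) (hJ : J = RingHom.ker φ) (N : ℕ) :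
    ∃ (u : ℕ) (e : Fin u → B), ∀ b : B, ∃ c : Fin u → κ, b - ∑ i, c i • e i ∈ J ^ N := by
  classical
  induction N with
  | zero =>
    refine ⟨0, fun i => 0, fun b => ⟨fun _ => 0, ?_⟩⟩
    rw [pow_zero, Ideal.one_eq_top]
    exact Submodule.mem_top
  | succ N ih =>
    obtain ⟨u, e, he⟩ := ih
    obtain ⟨v, g, hg⟩ : ∃ (v : ℕ) (g : Fin v → B), Ideal.span (Set.range g) = J ^ N :=
      Submodule.fg_iff_exists_fin_generating_family.1 (IsNoetherian.noetherian (J ^ N))
    have hJ' : ∀ b : B, b - φ b • (1 : B) ∈ J := by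
      intro b
      rw [hJ, RingHom.mem_ker, map_sub, map_smul, map_one, smul_eq_mul, mul_one, sub_self]
    refine ⟨u + v, Fin.append e g, fun b => ?_⟩
    obtain ⟨c, hc⟩ := he b
    rw [← hg, Ideal.span, Submodule.mem_span_range_iff_exists_fun] at hc
    obtain ⟨a, ha⟩ := hc
    refine ⟨Fin.append c fun j => φ (a j), ?_⟩
    have h1 : b - ∑ i, Fin.append c (fun j => φ (a j)) i • Fin.append e g i =
        ∑ j, (a j - φ (a j) • (1 : B)) * g j := by
      rw [Fin.sum_univ_add]
      simp only [Fin.append_left, Fin.append_right, sub_mul, smul_mul_assoc, one_mul, Finset.sum_sub_distrib]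
      rw [← sub_sub, ← ha]
      simp only [smul_eq_mul]
    rw [h1, pow_succ']
    refine Ideal.sum_mem _ fun j _ => Ideal.mul_mem_mul (hJ' _) ?_
    rw [← hg]
    exact Ideal.subset_span ⟨j, rfl⟩

theorem fin_jet (hX : IsVar X) (y : X.P) (N : ℕ) :
    ∃ (u : ℕ) (e : Fin u → X.kap y ⊗[k] X.O y), ∀ b : X.kap y ⊗[k] X.O y, ∃ c : Fin u → X.kap y,
      b - ∑ i, c i • e i ∈ JY y ^ N := by
  have := ess_O hX y
  have : Algebra.EssFiniteType (X.kap y) (X.kap y ⊗[k] X.O y) := inferInstance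
  have : IsNoetherianRing (X.kap y ⊗[k] X.O y) := Algebra.EssFiniteType.isNoetherianRing (X.kap y) _
  exact fin_gen (jm y) (JY y) rfl N

end Pool.Agent.H61.ZO
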