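import Pool.Agent.H61.ZO.Def

/-!
# [H61 ZO SB] THEOREM Z0 (MP_e49dc9_ag), no deep centres: the valuation ring of the algebraic closure and the coefficient map

`ext_tau`: for a place `q` of `K` over `F` (`trdeg K / F = 1`, `K / F` finitely generated, characteristic `0`) there are `V`, `τ` with `Tau q V τ`, `Ω` the algebraic closure of `K`.
PROOF. `V`: a valuation ring of `Ω` which dominates `q.R` (`LocalSubring.exists_le_valuationSubring` or similar; `V ∩ K = q.R`: `a ∉ q.R` has `a⁻¹` in the maximal ideal).  `mem`: clear.  `alg`: `b` algebraic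
over `F ⊆ V` is integral over `V`, so in `V`.  The residue field of `q.R` is algebraic over `F` (finite: as in `deg_pos`, H83/TU/PF3; `fin_plP`, PF2).  COEFFICIENT: for `a ∈ q.R` there is exactly one `b ∈ Ω`,
algebraic over `F`, with `a - b ∈ 𝔪_V`: `g ∈ F[T]` monic, the minimal polynomial of the residue of `a` over `F`: `g(a) ∈ 𝔪_q`; `g = ∏ (T - b_i)` in `Ω[T]`, `∏ (a - b_i) ∈ 𝔪_V`, so some `a - b_i ∈ 𝔪_V`;
uniqueness: an element of `𝔪_V` algebraic over `F` is `0` (its inverse is algebraic, so in `V`).  `τ a := b`; `τ` is a ring homomorphism, `tF`, `ker` (`τ a = 0` iff `a ∈ 𝔪_V ∩ K = 𝔪_q`) by uniqueness.  `div`: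
`g` is separable (characteristic `0`, irreducible), `b = τ a` is a root of `g` (`g(τ a) = τ(g(a)) = 0`), `g = (T - b) g₁` in `Ω[T]`, `g₁(b) = g'(b) ≠ 0` is algebraic over `F`, so a unit of `V`,
`g₁(a) - g₁(b) ∈ 𝔪_V`: `g₁(a)` is a unit of `V`; `g(a) ∈ 𝔪_q = π q.R`: `(a - b) / π = (g(a) / π) g₁(a)⁻¹ ∈ V`.
-/

set_option autoImplicit false

namespace Pool.Agent.H61.ZO

open Pool.Agent.H54.RV Pool.Agent.H83.TU

variable {k K : Type} [Field k] [Field K] [Algebra k K]

section

open Polynomial

/-- an extension of a valuation ring to a bigger field -/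
private theorem sb_ext {K Ω : Type} [Field K] [Field Ω] (i : K →+* Ω) (R : ValuationSubring K) :
    ∃ V : ValuationSubring Ω, ∀ a : K, i a ∈ V ↔ a ∈ R := by
  obtain ⟨V, hV⟩ := (R.toLocalSubring.map i).exists_le_valuationSubring
  obtain ⟨h1, h2⟩ := LocalSubring.le_def.1 hV
  have h3 : ∀ a ∈ R, i a ∈ (R.toLocalSubring.map i).toSubring := by
    intro a ha
    rw [LocalSubring.map_toSubring]
    exact Subring.mem_map.2 ⟨a, ha, rfl⟩
  refine ⟨V, fun a => ⟨fun ha => ?_, fun ha => h1 (h3 a ha)⟩⟩
  by_contra hna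
  have ha0 : a ≠ 0 := by
    rintro rfl
    exact hna R.zero_mem
  have hinv : a⁻¹ ∈ R := (R.mem_or_inv_mem a).resolve_left hna
  have hx : IsUnit (Subring.inclusion h1 ⟨i a⁻¹, h3 _ hinv⟩) := by
    refine isUnit_iff_exists_inv.2 ⟨⟨i a, ha⟩, Subtype.ext ?_⟩
    change i a⁻¹ * i a = 1
    rw [← map_mul, inv_mul_cancel₀ ha0, map_one]
  have hx' := h2.map_nonunit _ hx
  obtain ⟨y, hy⟩ := isUnit_iff_exists_inv.1 hx'
  have hy1 : i a⁻¹ * y.1 = 1 := congrArg Subtype.val hy
  have hy2 : y.1 ∈ Subring.map i R.toLocalSubring.toSubring := y.2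
  obtain ⟨b, hb, hby⟩ := Subring.mem_map.1 hy2
  rw [← hby, ← map_mul, ← map_one i] at hy1
  have h4 := i.injective hy1
  have h5 : b = a := by
    field_simp at h4
    exact h4
  exact hna (h5 ▸ hb)

private theorem sb_alg {F Ω : Type} [Field F] [Field Ω] [Algebra F Ω] (V : ValuationSubring Ω)
    (hF : ∀ c : F, algebraMap F Ω c ∈ V) {b : Ω} (hb : IsAlgebraic F b) : b ∈ V := by
  obtain ⟨p, hp, hpb⟩ := hb.isIntegral
  have h2 : IsIntegral V b := by
    refine ⟨p.map ((algebraMap F Ω).codRestrict V hF), hp.map _, ?_⟩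
    rw [Polynomial.eval₂_map]
    exact hpb
  obtain ⟨y, hy⟩ := IsIntegrallyClosed.isIntegral_iff.1 h2
  rw [← hy]
  exact y.2

private theorem sb_uniq {F Ω : Type} [Field F] [Field Ω] [Algebra F Ω] (V : ValuationSubring Ω)
    (hF : ∀ c : F, algebraMap F Ω c ∈ V) {b : Ω} (hb : IsAlgebraic F b)
    (h : V.valuation b < 1) : b = 0 := by
  by_contra h0
  have h1 := sb_alg V hF hb.inv
  rw [← V.valuation_le_one_iff, map_inv₀] at h1
  have h2 : 0 < V.valuation b := zero_lt_iff.2 ((V.valuation.ne_zero_iff).2 h0)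
  rw [inv_le_one₀ h2] at h1
  exact absurd h h1.not_gt

/-- the coefficient: a root of `g` near `x` -/
private theorem sb_root {F Ω : Type} [Field F] [Field Ω] [Algebra F Ω] [IsAlgClosed Ω]
    (V : ValuationSubring Ω) {g : Polynomial F} (hg : g.Monic) {x : Ω}
    (h : V.valuation (aeval x g) < 1) : ∃ b : Ω, aeval b g = 0 ∧ V.valuation (x - b) < 1 := by
  by_contra hcon
  push Not at hcon
  have h1 := (IsAlgClosed.splits (g.map (algebraMap F Ω))).eval_eq_prod_roots_of_monic
    (hg.map _) x
  rw [Polynomial.eval_map_algebraMap] at h1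
  rw [h1, map_multiset_prod, Multiset.map_map] at h
  refine absurd h (not_lt.2 (Multiset.one_le_prod_of_one_le ?_))
  intro y hy
  obtain ⟨b, hb, rfl⟩ := Multiset.mem_map.1 hy
  refine hcon b ?_
  have h2 := (Polynomial.mem_roots'.1 hb).2
  rw [Polynomial.IsRoot, Polynomial.eval_map_algebraMap] at h2
  exact h2

/-- the main computation for the divisibility -/
private theorem sb_div {F Ω : Type} [Field F] [CharZero F] [Field Ω] [Algebra F Ω]
    (V : ValuationSubring Ω) (hF : ∀ c : F, algebraMap F Ω c ∈ V) {g : Polynomial F}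
    (hg : Irreducible g) {x b : Ω} (hx : x ∈ V) (hbx : V.valuation (x - b) < 1)
    (hb : aeval b g = 0) : V.valuation (x - b) = V.valuation (aeval x g) := by
  have hba : IsAlgebraic F b := ⟨g, hg.ne_zero, hb⟩
  have hbV : b ∈ V := sb_alg V hF hba
  let φ : F →+* V := (algebraMap F Ω).codRestrict V hF
  have hy : x - b ∈ V := V.sub_mem hx hbV
  obtain ⟨k, hk⟩ := Polynomial.binomExpansion (g.map φ) (⟨b, hbV⟩ : V) ⟨x - b, hy⟩
  have hev : ∀ (p : Polynomial F) (z : V), ((Polynomial.eval z (p.map φ) : V) : Ω) = aeval (z : Ω) p := by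
    intro p z
    rw [Polynomial.eval_map]
    change V.subtype (Polynomial.eval₂ φ z p) = _
    rw [Polynomial.hom_eval₂]
    rfl
  have hk' := congrArg (fun z : V => (z : Ω)) hk
  have hxe : ((⟨b, hbV⟩ : V) + ⟨x - b, hy⟩ : V) = ⟨x, hx⟩ := Subtype.ext (by
    change b + (x - b) = x
    ring)
  rw [hxe] at hk'
  have h1 : aeval x g = aeval b g + aeval b (derivative g) * (x - b) + (k : Ω) * (x - b) ^ 2 := by
    have e1 := hev g ⟨x, hx⟩
    have e2 := hev g ⟨b, hbV⟩
    have e3 := hev (derivative g) ⟨b, hbV⟩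
    rw [← Polynomial.derivative_map] at e3
    change ((Polynomial.eval (⟨x, hx⟩ : V) (g.map φ) : V) : Ω) =
      ((Polynomial.eval (⟨b, hbV⟩ : V) (g.map φ) : V) : Ω) +
      ((Polynomial.eval (⟨b, hbV⟩ : V) (derivative (g.map φ)) : V) : Ω) * (x - b) +
      (k : Ω) * (x - b) ^ 2 at hk'
    rw [e1, e2, e3] at hk'
    exact hk'
  rw [hb, zero_add] at h1
  have hsep := hg.separable
  have hu0 : aeval b (derivative g) ≠ 0 := hsep.eval₂_derivative_ne_zero (algebraMap F Ω) hb
  have hua : IsAlgebraic F (aeval b (derivative g)) := by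
    have h3 := Polynomial.aeval_algebraMap_apply Ω
      (⟨b, mem_algebraicClosure_iff.2 hba⟩ : algebraicClosure F Ω) (derivative g)
    have h4 : aeval b (derivative g) =
        ((aeval (⟨b, mem_algebraicClosure_iff.2 hba⟩ : algebraicClosure F Ω) (derivative g) :
          algebraicClosure F Ω) : Ω) := h3
    rw [h4]
    exact mem_algebraicClosure_iff.1 (Subtype.mem _)
  have hv1 : V.valuation (aeval b (derivative g)) = 1 := by
    refine le_antisymm ((V.valuation_le_one_iff _).2 (sb_alg V hF hua)) ?_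
    by_contra h3
    push Not at h3
    exact hu0 (sb_uniq V hF hua h3)
  have h2 : aeval x g = (aeval b (derivative g) + k * (x - b)) * (x - b) := by
    rw [h1]
    ring
  have h4 : V.valuation ((k : Ω) * (x - b)) < 1 := by
    rw [map_mul]
    exact lt_of_le_of_lt (mul_le_of_le_one_left' ((V.valuation_le_one_iff _).2 k.2)) hbx
  rw [h2, map_mul, Valuation.map_add_eq_of_lt_left, hv1, one_mul]
  rw [hv1]
  exact h4

private theorem sb_res {F : IntermediateField k K} [CharZero F] (htr : Algebra.trdeg F K = 1)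
    (hfg : (⊤ : IntermediateField F K).FG) (q : Place F K) (a : q.R) :
    ∃ g : Polynomial F, g.Monic ∧ Irreducible g ∧ ∃ c : q.R, ¬ IsUnit c ∧
      (c : K) = aeval (a : K) g := by
  have hdeg := deg_pos htr hfg q
  unfold deg at hdeg
  haveI : Module.Finite F (IsLocalRing.ResidueField q.R) := Module.finite_of_finrank_pos hdeg
  have hint : IsIntegral F (IsLocalRing.residue q.R a) := Algebra.IsIntegral.isIntegral _
  refine ⟨minpoly F (IsLocalRing.residue q.R a), minpoly.monic hint, minpoly.irreducible hint,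
    aeval a (minpoly F (IsLocalRing.residue q.R a)), ?_, ?_⟩
  · intro hu
    have h1 : IsLocalRing.residue q.R (aeval a (minpoly F (IsLocalRing.residue q.R a))) = 0 := by
      rw [← IsLocalRing.ResidueField.algebraMap_eq, ← Polynomial.aeval_algebraMap_apply]
      exact minpoly.aeval F _
    rw [IsLocalRing.residue_eq_zero_iff] at h1
    exact (IsLocalRing.mem_maximalIdeal _).1 h1 hu
  · exact (Polynomial.aeval_algebraMap_apply K a
      (minpoly F (IsLocalRing.residue q.R a))).symm

end

theorem ext_tau [CharZero k] {F : IntermediateField k K} (htr : Algebra.trdeg F K = 1)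
    (hfg : (⊤ : IntermediateField F K).FG) (q : Place F K) :
    ∃ (V : ValuationSubring (AlgebraicClosure K)) (τ : q.R →+* AlgebraicClosure K), Tau q V τ := by
  have hch : CharZero F := charZero_of_injective_algebraMap (algebraMap k F).injective
  obtain ⟨V, hV⟩ := sb_ext (algebraMap K (AlgebraicClosure K)) q.R
  have htw : algebraMap F (AlgebraicClosure K) =
      (algebraMap K (AlgebraicClosure K)).comp (algebraMap F K) :=
    IsScalarTower.algebraMap_eq F K (AlgebraicClosure K)
  have hF : ∀ c : F, algebraMap F (AlgebraicClosure K) c ∈ V := by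
    intro c
    rw [htw]
    exact (hV _).2 (q.mem c)
  have hin : ∀ a : q.R, algebraMap K (AlgebraicClosure K) a ∈ V := fun a => (hV _).2 a.2
  -- nonunits
  have hnu : ∀ a : q.R, ¬ IsUnit a → V.valuation (algebraMap K (AlgebraicClosure K) a) < 1 := by
    intro a ha
    by_cases h0 : (a : K) = 0
    · rw [h0, map_zero, map_zero]
      exact zero_lt_one
    · have h1 : (a : K)⁻¹ ∉ q.R := by
        intro h2
        apply ha
        exact isUnit_iff_exists_inv.2 ⟨⟨(a : K)⁻¹, h2⟩, Subtype.ext (mul_inv_cancel₀ h0)⟩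
      rw [← hV, map_inv₀, ← V.valuation_le_one_iff, map_inv₀, not_le] at h1
      have h3 : 0 < V.valuation (algebraMap K (AlgebraicClosure K) a) := by
        refine zero_lt_iff.2 ((V.valuation.ne_zero_iff).2 ?_)
        rwa [Ne, map_eq_zero]
      rwa [one_lt_inv₀ h3] at h1
  have hroot : ∀ a : q.R, ∃ (g : Polynomial F) (c : q.R) (b : AlgebraicClosure K),
      g.Monic ∧ Irreducible g ∧ ¬ IsUnit c ∧
      algebraMap K (AlgebraicClosure K) c =
        Polynomial.aeval (algebraMap K (AlgebraicClosure K) a) g ∧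
      Polynomial.aeval b g = 0 ∧ V.valuation (algebraMap K (AlgebraicClosure K) a - b) < 1 := by
    intro a
    obtain ⟨g, h1, h2, c, h3, h4⟩ := sb_res htr hfg q a
    have h5 : algebraMap K (AlgebraicClosure K) c =
        Polynomial.aeval (algebraMap K (AlgebraicClosure K) a) g := by
      rw [h4, Polynomial.aeval_algebraMap_apply]
    have h6 := hnu c h3
    rw [h5] at h6
    obtain ⟨b, h7, h8⟩ := sb_root V h1 h6
    exact ⟨g, c, b, h1, h2, h3, h5, h7, h8⟩
  choose g c τ0 hg1 hg2 hc1 hc2 hτ1 hτ2 using hroot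
  have hτa : ∀ a, IsAlgebraic F (τ0 a) := fun a => ⟨g a, (hg2 a).ne_zero, hτ1 a⟩
  have hτV : ∀ a, τ0 a ∈ V := fun a => sb_alg V hF (hτa a)
  have huni : ∀ (a : q.R) (b : AlgebraicClosure K), IsAlgebraic F b →
      V.valuation (algebraMap K (AlgebraicClosure K) a - b) < 1 → τ0 a = b := by
    intro a b hb hab
    have h1 : τ0 a - b = 0 := by
      refine sb_uniq V hF ((hτa a).sub hb) ?_
      have h2 : τ0 a - b = (algebraMap K (AlgebraicClosure K) a - b) -
          (algebraMap K (AlgebraicClosure K) a - τ0 a) := by ring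
      rw [h2]
      exact lt_of_le_of_lt (V.valuation.map_sub _ _) (max_lt hab (hτ2 a))
    exact sub_eq_zero.1 h1
  have hle : ∀ x ∈ V, ∀ y, V.valuation y < 1 → V.valuation (x * y) < 1 := by
    intro x hx y hy
    rw [map_mul]
    exact lt_of_le_of_lt (mul_le_of_le_one_left' ((V.valuation_le_one_iff _).2 hx)) hy
  have hone : τ0 1 = 1 := huni 1 1 isAlgebraic_one (by
    change V.valuation (algebraMap K (AlgebraicClosure K) 1 - 1) < 1
    rw [map_one, sub_self, map_zero]
    exact zero_lt_one)
  have hzero : τ0 0 = 0 := huni 0 0 isAlgebraic_zero (by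
    change V.valuation (algebraMap K (AlgebraicClosure K) 0 - 0) < 1
    rw [map_zero, sub_self, map_zero]
    exact zero_lt_one)
  have hmul : ∀ a a', τ0 (a * a') = τ0 a * τ0 a' := by
    intro a a'
    refine huni _ _ ((hτa a).mul (hτa a')) ?_
    have e : algebraMap K (AlgebraicClosure K) ((a * a' : q.R) : K) - τ0 a * τ0 a' =
        algebraMap K (AlgebraicClosure K) a * (algebraMap K (AlgebraicClosure K) a' - τ0 a') +
        τ0 a' * (algebraMap K (AlgebraicClosure K) a - τ0 a) := by
      have e1 : algebraMap K (AlgebraicClosure K) ((a * a' : q.R) : K) =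
          algebraMap K (AlgebraicClosure K) a * algebraMap K (AlgebraicClosure K) a' :=
        map_mul (algebraMap K (AlgebraicClosure K)) (a : K) (a' : K)
      rw [e1]
      ring
    rw [e]
    exact lt_of_le_of_lt (V.valuation.map_add _ _)
      (max_lt (hle _ (hin a) _ (hτ2 a')) (hle _ (hτV a') _ (hτ2 a)))
  have hadd : ∀ a a', τ0 (a + a') = τ0 a + τ0 a' := by
    intro a a'
    refine huni _ _ ((hτa a).add (hτa a')) ?_
    have e : algebraMap K (AlgebraicClosure K) ((a + a' : q.R) : K) - (τ0 a + τ0 a') =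
        (algebraMap K (AlgebraicClosure K) a - τ0 a) +
        (algebraMap K (AlgebraicClosure K) a' - τ0 a') := by
      have e1 : algebraMap K (AlgebraicClosure K) ((a + a' : q.R) : K) =
          algebraMap K (AlgebraicClosure K) a + algebraMap K (AlgebraicClosure K) a' :=
        map_add (algebraMap K (AlgebraicClosure K)) (a : K) (a' : K)
      rw [e1]
      ring
    rw [e]
    exact lt_of_le_of_lt (V.valuation.map_add _ _) (max_lt (hτ2 a) (hτ2 a'))
  let τ : q.R →+* AlgebraicClosure K :=
    { toFun := τ0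
      map_one' := hone
      map_mul' := hmul
      map_zero' := hzero
      map_add' := hadd }
  refine ⟨V, τ, ?_⟩
  have hal : ∀ b : AlgebraicClosure K, (∃ p : Polynomial F, p ≠ 0 ∧
      p.eval₂ ((algebraMap K (AlgebraicClosure K)).comp (algebraMap F K)) b = 0) →
      IsAlgebraic F b := by
    rintro b ⟨p, hp, hpb⟩
    refine ⟨p, hp, ?_⟩
    rw [Polynomial.aeval_def, htw]
    exact hpb
  refine ⟨hV, fun b hb => sb_alg V hF (hal b hb), ?_, ?_, ?_, ?_⟩
  · intro a
    refine ⟨g a, (hg2 a).ne_zero, ?_⟩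
    have h1 := hτ1 a
    rw [Polynomial.aeval_def, htw] at h1
    exact h1
  · intro a
    refine huni _ _ ?_ ?_
    · have h1 : algebraMap K (AlgebraicClosure K) (algebraMap F K a) =
          algebraMap F (AlgebraicClosure K) a := by
        rw [htw]
        rfl
      rw [h1]
      exact isAlgebraic_algebraMap a
    · change V.valuation (algebraMap K (AlgebraicClosure K) (algebraMap F K a) -
        algebraMap K (AlgebraicClosure K) (algebraMap F K a)) < 1
      rw [sub_self, map_zero]
      exact zero_lt_one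
  · intro a
    constructor
    · intro h0 hu
      obtain ⟨y, hy⟩ := isUnit_iff_exists_inv.1 hu
      have h1 := hτ2 a
      have h2 : τ0 a = 0 := h0
      rw [h2, sub_zero] at h1
      have h3 := hle _ (hin y) _ h1
      have h4 : algebraMap K (AlgebraicClosure K) y * algebraMap K (AlgebraicClosure K) a = 1 := by
        rw [← map_mul, mul_comm]
        have h5 : (a : K) * (y : K) = 1 := congrArg Subtype.val hy
        rw [h5, map_one]
      rw [h4, map_one] at h3
      exact lt_irrefl _ h3
    · intro hu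
      refine huni a 0 isAlgebraic_zero ?_
      rw [sub_zero]
      exact hnu a hu
  · intro a π hπ hπ1
    have h1 : V.valuation (algebraMap K (AlgebraicClosure K) a - τ0 a) =
        V.valuation (algebraMap K (AlgebraicClosure K) (c a)) := by
      rw [hc2]
      exact sb_div V hF (hg2 a) (hin a) (hτ2 a) (hτ1 a)
    have h2 : (c a : K) / π ∈ q.R := by
      by_cases h0 : (c a : K) = 0
      · rw [h0, zero_div]
        exact q.R.zero_mem
      · have h3 : 0 ≤ q.ord (c a : K) := (ord_nonneg q _ h0).2 (c a).2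
        have h4 : q.ord (c a : K) ≠ 0 := by
          intro h5
          obtain ⟨-, h6⟩ := (ord_eq_zero q _ h0).1 h5
          exact hc1 a (isUnit_iff_exists_inv.2
            ⟨⟨(c a : K)⁻¹, h6⟩, Subtype.ext (mul_inv_cancel₀ h0)⟩)
        rw [div_eq_mul_inv, ← ord_nonneg q _ (mul_ne_zero h0 (inv_ne_zero hπ)),
          ord_mul q _ _ h0 (inv_ne_zero hπ), ord_inv, hπ1]
        omega
    rw [← hV, map_div₀] at h2
    rw [← V.valuation_le_one_iff, map_div₀] at h2 ⊢
    change V.valuation (algebraMap K (AlgebraicClosure K) a - τ0 a) / _ ≤ 1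
    rw [h1]
    exact h2

end Pool.Agent.H61.ZO
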