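import Pool.Agent.H61.ZO.Def
import Pool.Agent.H24.TU.RFG

/-!
# [H61 ZO SC] THEOREM Z0 (MP_e49dc9_ag), no deep centres: the degree bound

`deg_bd`: `x = ∑ b_i f_i ≠ 0`, `f_i` sections of `D`, `b_i ∈ Ω` algebraic over `F`; if `x D.eq / π ^ M ∈ V` at the centre of `q` then `M ≤ deg(x) R_F(D)`, `deg(x)` the degree of `x` over `K`.
PROOF. `P` the minimal polynomial of `x` over `K` (`x` is integral over `K`: the `b_i` are algebraic over `F`), `d` its degree, `c₀ = P(0) ≠ 0`.  For a place `p` of `K / F` with centre `z` and `ε = D.eq z`: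
`x ε = ∑ b_i (f_i ε)` is integral over `p.R` (`F ⊆ p.R`, `f_i ε ∈ X.O z ⊆ p.R`); its minimal polynomial over `K` has coefficients in `p.R` (`minpoly.isIntegrallyClosed_eq_field_fractions`; or the norm,
`Algebra.isIntegral_norm`, in `K⟮x⟯`) and constant coefficient `c₀ ε ^ d`: `ord_p (c₀ ε ^ d) ≥ 0`.  At `q`: `c₀ ε ^ d = - (x ε) g(x ε)` with `g ∈ q.R[T]`, `x ε ∈ V` (integral over `q.R`), so
`c₀ ε ^ d / π ^ M ∈ V ∩ K = q.R`: `ord_q (c₀ ε ^ d) ≥ M`.  Sum over the places with the degrees (`RF`, `rf_pow`, `sum_ordD` for `c₀`; or `rf_prin`, H32/TU/RFP, for `prin c₀ * D ^ d`, which has nonnegative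
orders): `M ≤ M deg q ≤ RF (prin c₀ * D ^ d) = d RF D`.
-/

set_option autoImplicit false

namespace Pool.Agent.H61.ZO

open Pool.Agent.H54.RV Pool.Agent.H83.TU

variable {k K Ω : Type} [Field k] [Field K] [Algebra k K] [Field Ω] [Algebra k Ω] [Algebra K Ω] [IsScalarTower k K Ω] {X : Mod k K}

/-- the minimal polynomial of a multiple -/
private theorem mp_scale (x : Ω) (hx : IsIntegral K x) (e : K) (he : e ≠ 0) :
    minpoly K (algebraMap K Ω e * x) = (minpoly K x).scaleRoots e := by
  have hint : IsIntegral K (algebraMap K Ω e * x) := isIntegral_algebraMap.mul hx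
  have h0 : Polynomial.aeval (algebraMap K Ω e * x) ((minpoly K x).scaleRoots e) = 0 :=
    Polynomial.scaleRoots_aeval_eq_zero (minpoly.aeval K x)
  have h1 : ((minpoly K x).scaleRoots e).Monic :=
    (Polynomial.monic_scaleRoots_iff e).2 (minpoly.monic hx)
  have h2 : (minpoly K x).natDegree ≤ (minpoly K (algebraMap K Ω e * x)).natDegree := by
    have h3 : Polynomial.aeval x ((minpoly K (algebraMap K Ω e * x)).scaleRoots e⁻¹) = 0 := by
      have h4 := Polynomial.scaleRoots_aeval_eq_zero (r := e⁻¹) (minpoly.aeval K (algebraMap K Ω e * x))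
      have h5 : algebraMap K Ω e⁻¹ * (algebraMap K Ω e * x) = x := by
        rw [← mul_assoc, ← map_mul, inv_mul_cancel₀ he, map_one, one_mul]
      rw [h5] at h4
      exact h4
    have h6 : ((minpoly K (algebraMap K Ω e * x)).scaleRoots e⁻¹).Monic :=
      (Polynomial.monic_scaleRoots_iff _).2 (minpoly.monic hint)
    have h7 := Polynomial.natDegree_le_of_dvd (minpoly.dvd K x h3) h6.ne_zero
    rw [Polynomial.natDegree_scaleRoots] at h7
    exact h7
  refine (Polynomial.eq_of_monic_of_dvd_of_natDegree_le (minpoly.monic hint) h1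
    (minpoly.dvd K _ h0) ?_).symm
  rw [Polynomial.natDegree_scaleRoots]
  exact h2

/-- elements of the form `∑ b_i f_i` are integral over the valuation rings which contain the `f_i` -/
private theorem int_sum {F : IntermediateField k K} (p : Place F K) {n : ℕ} (g : Fin n → K) (hg : ∀ i, g i ∈ p.R)
    (b : Fin n → Ω)
    (hb : ∀ i, ∃ p : Polynomial F, p ≠ 0 ∧ p.eval₂ ((algebraMap K Ω).comp (algebraMap F K)) (b i) = 0) :
    ((algebraMap K Ω).comp (algebraMap p.R K)).IsIntegralElem (∑ i, b i * algebraMap K Ω (g i)) := by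
  letI : Algebra p.R Ω := ((algebraMap K Ω).comp (algebraMap p.R K)).toAlgebra
  have h1 : ∀ i, IsIntegral p.R (b i) := by
    intro i
    obtain ⟨P, hP0, hP⟩ := hb i
    obtain ⟨φ, hφ⟩ : ∃ φ : F →+* p.R, ∀ a, algebraMap p.R K (φ a) = algebraMap F K a :=
      ⟨(algebraMap F K).codRestrict p.R.toSubring p.mem, fun a => rfl⟩
    refine ⟨(P * Polynomial.C P.leadingCoeff⁻¹).map φ,
      (Polynomial.monic_mul_leadingCoeff_inv hP0).map φ, ?_⟩
    rw [Polynomial.eval₂_map]
    have h2 : (algebraMap p.R Ω).comp φ = (algebraMap K Ω).comp (algebraMap F K) := by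
      ext a
      show algebraMap K Ω (algebraMap p.R K (φ a)) = _
      rw [hφ]
      rfl
    rw [h2, Polynomial.eval₂_mul, hP, zero_mul]
  have h3 : IsIntegral p.R (∑ i, b i * algebraMap K Ω (g i)) := by
    refine IsIntegral.sum _ fun i _ => (h1 i).mul ?_
    exact isIntegral_algebraMap (R := p.R) (A := Ω) (x := ⟨g i, hg i⟩)
  exact h3

/-- the minimal polynomial of an integral element has coefficients in the valuation ring -/
private theorem mp_int (R : ValuationSubring K) (y : Ω)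
    (hy : ((algebraMap K Ω).comp (algebraMap R K)).IsIntegralElem y) :
    ∃ Q : Polynomial R, Q.map (algebraMap R K) = minpoly K y := by
  letI : Algebra R Ω := ((algebraMap K Ω).comp (algebraMap R K)).toAlgebra
  haveI : IsScalarTower R K Ω := IsScalarTower.of_algebraMap_eq fun _ => rfl
  exact ⟨minpoly R y, (minpoly.isIntegrallyClosed_eq_field_fractions' K hy).symm⟩

theorem deg_bd [CharZero k] (hX : IsVar X) (hg : ∃ g, Gen X g) {F : IntermediateField k K}
    (htr : Algebra.trdeg F K = 1) (D : Cart X) (q : Place F K) {V : ValuationSubring Ω} {τ : q.R →+* Ω}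
    (hτ : Tau q V τ) {n : ℕ} (f : Fin n → K) (hf : ∀ i, f i ∈ secL D 1) (b : Fin n → Ω)
    (hb : ∀ i, ∃ p : Polynomial F, p ≠ 0 ∧ p.eval₂ ((algebraMap K Ω).comp (algebraMap F K)) (b i) = 0)
    (hx : ∑ i, b i * algebraMap K Ω (f i) ≠ 0) {π : K} (hπ0 : π ≠ 0) (hπ : q.ord π = 1) (M : ℕ)
    (hv : (∑ i, b i * algebraMap K Ω (f i)) * algebraMap K Ω (D.eq (cenK hX hg (down q))) / algebraMap K Ω π ^ M ∈ V) :
    (M : ℤ) ≤ (minpoly K (∑ i, b i * algebraMap K Ω (f i))).natDegree * RF hX hg F D := by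
  classical
  have : CharZero F := charZero_of_injective_algebraMap (algebraMap k F).injective
  obtain ⟨x, hxe⟩ : ∃ x, x = ∑ i, b i * algebraMap K Ω (f i) := ⟨_, rfl⟩
  rw [← hxe] at hx hv ⊢
  -- `x` is integral over `K`
  have hxi : IsIntegral K x := by
    rw [hxe]
    refine IsIntegral.sum _ fun i _ => IsIntegral.mul ?_ isIntegral_algebraMap
    obtain ⟨P, hP0, hP⟩ := hb i
    have h1 : IsAlgebraic K (b i) := by
      refine ⟨P.map (algebraMap F K), ?_, ?_⟩
      · rw [Ne, Polynomial.map_eq_zero]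
        exact hP0
      · rw [Polynomial.aeval_def, Polynomial.eval₂_map]
        exact hP
    exact h1.isIntegral
  obtain ⟨c, hc⟩ : ∃ c, c = (minpoly K x).coeff 0 := ⟨_, rfl⟩
  have hc0 : c ≠ 0 := hc ▸ minpoly.coeff_zero_ne_zero hxi hx
  obtain ⟨d, hd⟩ : ∃ d, d = (minpoly K x).natDegree := ⟨_, rfl⟩
  rw [← hd]
  have hcoe : ∀ e : K, e ≠ 0 → (minpoly K (algebraMap K Ω e * x)).coeff 0 = c * e ^ d := by
    intro e he
    rw [mp_scale x hxi e he, Polynomial.coeff_scaleRoots, Nat.sub_zero, ← hc, ← hd]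
  -- integrality
  have hint : ∀ p : Place F K, ((algebraMap K Ω).comp (algebraMap p.R K)).IsIntegralElem
      (algebraMap K Ω (D.eq (cenK hX hg (down p))) * x) := by
    intro p
    have h1 := int_sum p (fun i => f i * D.eq (cenK hX hg (down p))) (fun i => by
      have h2 := hf i (cenK hX hg (down p))
      rw [pow_one] at h2
      exact cenK_le hX hg (down p) _ h2) b hb
    have h3 : algebraMap K Ω (D.eq (cenK hX hg (down p))) * x =
        ∑ i, b i * algebraMap K Ω (f i * D.eq (cenK hX hg (down p))) := by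
      rw [hxe, Finset.mul_sum]
      refine Finset.sum_congr rfl fun i _ => ?_
      rw [map_mul]
      ring
    rw [h3]
    exact h1
  -- the orders are nonnegative
  have hnn : ∀ p : Place F K, 0 ≤ p.ord (c * D.eq (cenK hX hg (down p)) ^ d) := by
    intro p
    rw [ord_nonneg p _ (mul_ne_zero hc0 (pow_ne_zero _ (D.ne _)))]
    obtain ⟨Q, hQ⟩ := mp_int p.R _ (hint p)
    rw [← hcoe _ (D.ne _), ← hQ, Polynomial.coeff_map]
    exact (Q.coeff 0).2
  -- the order at `q`
  have hq : (M : ℤ) ≤ q.ord (c * D.eq (cenK hX hg (down q)) ^ d) := by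
    obtain ⟨e, he⟩ : ∃ e, e = D.eq (cenK hX hg (down q)) := ⟨_, rfl⟩
    have he0 : e ≠ 0 := he ▸ D.ne _
    obtain ⟨Q, hQ⟩ := mp_int q.R _ (hint q)
    rw [← he] at hQ hv ⊢
    have hπR : π ∈ q.R := by
      rw [← ord_nonneg q π hπ0, hπ]
      exact zero_le_one
    have hπV : algebraMap K Ω π ∈ V := (hτ.mem π).2 hπR
    have hπ' : algebraMap K Ω π ≠ 0 := by
      rw [Ne, map_eq_zero]
      exact hπ0
    obtain ⟨y, hy⟩ : ∃ y, y = algebraMap K Ω e * x := ⟨_, rfl⟩
    have hyM : y / algebraMap K Ω π ^ M ∈ V := by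
      rw [hy, mul_comm]
      exact hv
    have hyV : y ∈ V := by
      have h1 : y = y / algebraMap K Ω π ^ M * algebraMap K Ω π ^ M := by
        field_simp
      rw [h1]
      exact mul_mem hyM (pow_mem hπV M)
    have hroot : Q.eval₂ ((algebraMap K Ω).comp (algebraMap q.R K)) y = 0 := by
      have h1 := minpoly.aeval K (algebraMap K Ω e * x)
      rw [← hQ, Polynomial.aeval_def, Polynomial.eval₂_map, ← hy] at h1
      exact h1
    have hc1 : algebraMap q.R K (Q.coeff 0) = c * e ^ d := by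
      rw [← Polynomial.coeff_map, hQ, hcoe e he0]
    have hsplit : Q.divX.eval₂ ((algebraMap K Ω).comp (algebraMap q.R K)) y * y +
        algebraMap K Ω (c * e ^ d) = 0 := by
      rw [← hc1]
      have h1 := hroot
      rw [← Polynomial.divX_mul_X_add Q, Polynomial.eval₂_add, Polynomial.eval₂_mul, Polynomial.eval₂_X,
        Polynomial.eval₂_C] at h1
      exact h1
    have hgV : Q.divX.eval₂ ((algebraMap K Ω).comp (algebraMap q.R K)) y ∈ V := by
      rw [Polynomial.eval₂_eq_sum_range]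
      refine sum_mem fun i _ => mul_mem ?_ (pow_mem hyV i)
      exact (hτ.mem _).2 (Q.divX.coeff i).2
    have hmem : algebraMap K Ω (c * e ^ d * (π ^ M)⁻¹) ∈ V := by
      have h1 : algebraMap K Ω (c * e ^ d * (π ^ M)⁻¹) =
          - (Q.divX.eval₂ ((algebraMap K Ω).comp (algebraMap q.R K)) y * (y / algebraMap K Ω π ^ M)) := by
        rw [map_mul, map_inv₀, map_pow, eq_neg_of_add_eq_zero_right hsplit]
        ring
      rw [h1]
      exact neg_mem (mul_mem hgV hyM)
    rw [hτ.mem] at hmem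
    have hce : c * e ^ d ≠ 0 := mul_ne_zero hc0 (pow_ne_zero _ he0)
    have hπM : π ^ M ≠ 0 := pow_ne_zero _ hπ0
    rw [← ord_nonneg q _ (mul_ne_zero hce (inv_ne_zero hπM)), ord_mul q _ _ hce (inv_ne_zero hπM), ord_inv,
      Pool.Agent.H39.TU.ord_powN q _ hπ0, hπ] at hmem
    omega
  -- the sum
  have hsum : RF hX hg F (prin X c hc0 * D ^ d) = d * RF hX hg F D := by
    rw [rf_mul hX hg F htr, rf_prin hX hg F htr, rf_pow hX hg F htr, zero_add]
  have heq : ∀ z, (prin X c hc0 * D ^ d).eq z = c * D.eq z ^ d := by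
    intro z
    rw [mul_eq, pow_eq]
    rfl
  rw [← hsum]
  have hfin : (Function.support fun p : Place F K =>
      p.ord ((prin X c hc0 * D ^ d).eq (cenK hX hg (down p))) * (deg p : ℤ)).Finite :=
    (rf_fin hX hg F htr _).subset fun p hp => left_ne_zero_of_mul hp
  have h1 := single_le_finsum q hfin (fun p => mul_nonneg (by rw [heq]; exact hnn p) (Int.natCast_nonneg _))
  refine le_trans ?_ h1
  rw [heq]
  have h2 : (1 : ℤ) ≤ deg q := by
    exact_mod_cast deg_pos htr (F_fg hX hg F) q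
  have h3 : (0 : ℤ) ≤ M := Int.natCast_nonneg M
  nlinarith

end Pool.Agent.H61.ZO
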