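import Pool.Agent.H61.ZO.SA
import Pool.Agent.H61.ZO.SB
import Pool.Agent.H61.ZO.SC

/-!
# [H61 ZO SD] THEOREM Z0 (MP_e49dc9_ag), no deep centres: the relation between sections

`y` the centre of the place `q` of `K / F`.
* `sig`: the residue field at `y` is mapped to `Ω` by `σ`, `σ (rs a) = τ a`, the values are algebraic over `F`.
  PROOF. `X.O y ⊆ q.R` (`cenK_dom`); a nonunit of `X.O y` is a nonunit of `q.R` (`Dom`), so `τ a = 0` (`Tau.ker`): `Ideal.Quotient.lift`; a homomorphism of `k`-algebras by `Tau.tF`.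
* `jet_rel`: `g_i = f_i D.eq y ∈ X.O y`; `∑ a_i ⊗ g_i ∈ J ^ N` implies `(∑ σ(a_i) f_i) D.eq / π ^ N ∈ V`.
  PROOF. `φ : κ ⊗ O y → Ω`, `φ (a ⊗ o) = σ(a) o`.  `z ∈ J`, `z = ∑ a_i ⊗ o_i`, `∑ a_i rs(o_i) = 0`:
  `φ z = ∑ σ(a_i) (o_i - τ o_i)`, so `φ z / π ∈ V` (`Tau.div`, `Tau.alg`); by induction `φ z / π ^ N ∈ V` for `z ∈ J ^ N` (`φ` has values in `V`).
-/

set_option autoImplicit false

open scoped TensorProduct

namespace Pool.Agent.H61.ZO

open Pool.Agent.H54.RV Pool.Agent.H83.TU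

variable {k K Ω : Type} [Field k] [Field K] [Algebra k K] [Field Ω] [Algebra k Ω] [Algebra K Ω] [IsScalarTower k K Ω] {X : Mod k K}

/-- the restriction of `τ` to the local ring at the centre -/
private noncomputable def tO (hX : IsVar X) (hg : ∃ g, Gen X g) {F : IntermediateField k K} (q : Place F K)
    (τ : q.R →+* Ω) : X.O (cenK hX hg (down q)) →+* Ω :=
  τ.comp
    { toFun := fun a => ⟨a, cenK_le hX hg (down q) a a.2⟩
      map_one' := rfl
      map_mul' := fun _ _ => rfl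
      map_zero' := rfl
      map_add' := fun _ _ => rfl }

omit [Algebra k Ω] [Algebra K Ω] [IsScalarTower k K Ω] in
private theorem tO_apply (hX : IsVar X) (hg : ∃ g, Gen X g) {F : IntermediateField k K} (q : Place F K)
    (τ : q.R →+* Ω) (a : X.O (cenK hX hg (down q))) (hq : (a : K) ∈ q.R) : tO hX hg q τ a = τ ⟨a, hq⟩ := rfl

omit [Algebra k Ω] [IsScalarTower k K Ω] in
private theorem tO_loc (hX : IsVar X) (hg : ∃ g, Gen X g) {F : IntermediateField k K} (q : Place F K)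
    {V : ValuationSubring Ω} {τ : q.R →+* Ω} (hτ : Tau q V τ) : IsLocalHom (tO hX hg q τ) := by
  constructor
  intro a ha
  have haq : (a : K) ∈ q.R := cenK_le hX hg (down q) a a.2
  rw [tO_apply hX hg q τ a haq] at ha
  have h1 : IsUnit (⟨a, haq⟩ : q.R) := by
    by_contra h2
    exact ha.ne_zero ((hτ.ker _).2 h2)
  obtain ⟨b, hb⟩ := isUnit_iff_exists_inv.1 h1
  have h3 : (a : K) * (b : K) = 1 := congrArg Subtype.val hb
  have h4 : (a : K) ≠ 0 := left_ne_zero_of_mul_eq_one h3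
  have h5 : (a : K)⁻¹ = b := (eq_inv_of_mul_eq_one_right h3).symm
  have h6 : (a : K)⁻¹ ∈ X.O (cenK hX hg (down q)) :=
    (cenK_dom hX hg (down q) a a.2).2 h4 (h5 ▸ b.2)
  exact IsUnit.of_mul_eq_one ⟨(a : K)⁻¹, h6⟩ (Subtype.ext (mul_inv_cancel₀ h4))

theorem sig (hX : IsVar X) (hg : ∃ g, Gen X g) {F : IntermediateField k K} (q : Place F K) {V : ValuationSubring Ω}
    {τ : q.R →+* Ω} (hτ : Tau q V τ) : ∃ σ : X.kap (cenK hX hg (down q)) →ₐ[k] Ω,
      (∀ (a : K) (_ : a ∈ X.O (cenK hX hg (down q))) (hq : a ∈ q.R), σ (X.rs (cenK hX hg (down q)) a) = τ ⟨a, hq⟩) ∧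
      ∀ a, ∃ p : Polynomial F, p ≠ 0 ∧ p.eval₂ ((algebraMap K Ω).comp (algebraMap F K)) (σ a) = 0 := by
  have hloc := tO_loc hX hg q hτ
  obtain ⟨y, hy⟩ : ∃ y, y = cenK hX hg (down q) := ⟨_, rfl⟩
  obtain ⟨σ₀, hσ₀⟩ : ∃ σ₀ : X.kap (cenK hX hg (down q)) →+* Ω,
      ∀ b : X.O (cenK hX hg (down q)), σ₀ (IsLocalRing.residue (X.O (cenK hX hg (down q))) b) = tO hX hg q τ b :=
    ⟨IsLocalRing.ResidueField.lift (tO hX hg q τ), fun b =>
      IsLocalRing.ResidueField.lift_residue_apply (tO hX hg q τ) b⟩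
  refine ⟨{ σ₀ with commutes' := fun c => ?_ }, ?_, ?_⟩
  · have h1 := hσ₀ (algebraMap k (X.O (cenK hX hg (down q))) c)
    have h2 := hτ.tF (algebraMap k F c)
    have h3 : tO hX hg q τ (algebraMap k (X.O (cenK hX hg (down q))) c) = algebraMap k Ω c := by
      rw [IsScalarTower.algebraMap_apply k K Ω]
      exact h2
    rw [h3] at h1
    exact h1
  · intro a ha hq
    have h1 : X.rs (cenK hX hg (down q)) a = IsLocalRing.residue (X.O (cenK hX hg (down q))) ⟨a, ha⟩ := by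
      unfold Mod.rs
      rw [dif_pos ha]
    rw [h1]
    exact hσ₀ ⟨a, ha⟩
  · intro a
    obtain ⟨b, hb⟩ := IsLocalRing.residue_surjective (R := X.O (cenK hX hg (down q))) a
    have h1 : σ₀ a = τ ⟨b, cenK_le hX hg (down q) b b.2⟩ := by
      rw [← hb]
      exact hσ₀ b
    obtain ⟨p, hp0, hp⟩ := hτ.talg ⟨b, cenK_le hX hg (down q) b b.2⟩
    refine ⟨p, hp0, ?_⟩
    show p.eval₂ ((algebraMap K Ω).comp (algebraMap F K)) (σ₀ a) = 0
    rw [h1]
    exact hp

theorem jet_rel (hX : IsVar X) (hg : ∃ g, Gen X g) {F : IntermediateField k K} (q : Place F K) {V : ValuationSubring Ω}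
    {τ : q.R →+* Ω} (hτ : Tau q V τ) (σ : X.kap (cenK hX hg (down q)) →ₐ[k] Ω)
    (hσ : ∀ (a : K) (_ : a ∈ X.O (cenK hX hg (down q))) (hq : a ∈ q.R), σ (X.rs (cenK hX hg (down q)) a) = τ ⟨a, hq⟩)
    (hσa : ∀ a, ∃ p : Polynomial F, p ≠ 0 ∧ p.eval₂ ((algebraMap K Ω).comp (algebraMap F K)) (σ a) = 0)
    {π : K} (hπ0 : π ≠ 0) (hπ : q.ord π = 1) (N : ℕ) (D : Cart X) (n : ℕ) (f : Fin n → K)
    (hf : ∀ i, f i * D.eq (cenK hX hg (down q)) ∈ X.O (cenK hX hg (down q)))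
    (a : Fin n → X.kap (cenK hX hg (down q)))
    (ha : ∑ i, (a i ⊗ₜ[k] (⟨f i * D.eq (cenK hX hg (down q)), hf i⟩ : X.O (cenK hX hg (down q)))) ∈
      JY (cenK hX hg (down q)) ^ N) :
    (∑ i, σ (a i) * algebraMap K Ω (f i)) * algebraMap K Ω (D.eq (cenK hX hg (down q))) / algebraMap K Ω π ^ N ∈ V := by
  obtain ⟨ψ, hψ⟩ : ∃ ψ : X.O (cenK hX hg (down q)) →ₐ[k] Ω, ∀ o, ψ o = algebraMap K Ω o :=
    ⟨(IsScalarTower.toAlgHom k K Ω).comp (X.O (cenK hX hg (down q))).val, fun _ => rfl⟩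
  obtain ⟨Φ, hΦ⟩ : ∃ Φ : X.kap (cenK hX hg (down q)) ⊗[k] X.O (cenK hX hg (down q)) →ₐ[k] Ω,
      ∀ c o, Φ (c ⊗ₜ o) = σ c * algebraMap K Ω o :=
    ⟨Algebra.TensorProduct.lift σ ψ fun _ _ => Commute.all _ _, fun c o => by
      rw [Algebra.TensorProduct.lift_tmul, hψ]⟩
  have hcV : ∀ c, σ c ∈ V := fun c => hτ.alg _ (hσa c)
  have hoV : ∀ o : X.O (cenK hX hg (down q)), algebraMap K Ω o ∈ V := fun o =>
    (hτ.mem _).2 (cenK_le hX hg (down q) o o.2)
  have h1 : ∀ z, Φ z ∈ V := by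
    intro z
    induction z using TensorProduct.induction_on with
    | zero =>
      rw [map_zero]
      exact zero_mem V
    | tmul c o =>
      rw [hΦ]
      exact mul_mem (hcV c) (hoV o)
    | add x y hx hy =>
      rw [map_add]
      exact add_mem hx hy
  have h2 : ∀ z, (Φ z - σ (jm (cenK hX hg (down q)) z)) / algebraMap K Ω π ∈ V := by
    intro z
    induction z using TensorProduct.induction_on with
    | zero =>
      rw [map_zero, map_zero, map_zero, sub_zero, zero_div]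
      exact zero_mem V
    | tmul c o =>
      have hoq : (o : K) ∈ q.R := cenK_le hX hg (down q) o o.2
      rw [hΦ, jm_tmul, map_mul, ← mul_sub, mul_div_assoc, resA_apply, hσ o o.2 hoq]
      exact mul_mem (hcV c) (hτ.div ⟨o, hoq⟩ π hπ0 hπ)
    | add x y hx hy =>
      have h3 : (Φ (x + y) - σ (jm (cenK hX hg (down q)) (x + y))) / algebraMap K Ω π =
          (Φ x - σ (jm (cenK hX hg (down q)) x)) / algebraMap K Ω π +
            (Φ y - σ (jm (cenK hX hg (down q)) y)) / algebraMap K Ω π := by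
        rw [map_add, map_add, map_add]
        ring
      rw [h3]
      exact add_mem hx hy
  have h3 : ∀ z ∈ JY (cenK hX hg (down q)), Φ z / algebraMap K Ω π ∈ V := by
    intro z hz
    have h4 := h2 z
    have h5 : jm (cenK hX hg (down q)) z = 0 := RingHom.mem_ker.1 hz
    rw [h5, map_zero, sub_zero] at h4
    exact h4
  have h4 : ∀ N : ℕ, ∀ z ∈ JY (cenK hX hg (down q)) ^ N, Φ z / algebraMap K Ω π ^ N ∈ V := by
    intro N
    induction N with
    | zero =>
      intro z _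
      rw [pow_zero, div_one]
      exact h1 z
    | succ N ih =>
      intro z hz
      rw [Submodule.pow_succ] at hz
      refine Submodule.mul_induction_on hz (fun x hx y hy => ?_) fun x y hx hy => ?_
      · rw [map_mul, pow_succ, mul_div_mul_comm]
        exact mul_mem (ih x hx) (h3 y hy)
      · rw [map_add, add_div]
        exact add_mem hx hy
  have h5 := h4 N _ ha
  rw [map_sum] at h5
  have h6 : ∑ i, Φ (a i ⊗ₜ[k] (⟨f i * D.eq (cenK hX hg (down q)), hf i⟩ : X.O (cenK hX hg (down q)))) =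
      (∑ i, σ (a i) * algebraMap K Ω (f i)) * algebraMap K Ω (D.eq (cenK hX hg (down q))) := by
    rw [Finset.sum_mul]
    refine Finset.sum_congr rfl fun i _ => ?_
    rw [hΦ]
    show σ (a i) * algebraMap K Ω (f i * D.eq (cenK hX hg (down q))) = _
    rw [map_mul, mul_assoc]
  rw [h6] at h5
  exact h5

end Pool.Agent.H61.ZO
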