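import Pool.Agent.H61.ZO.SD
import Pool.Agent.H61.ZO.JE
import Pool.Agent.H83.TK.Dim
import Pool.Agent.H20.ZO.Glb

/-!
# [H61 ZO SE] THEOREM Z0 (MP_e49dc9_ag): no deep centres

`no_deep`: `F` closed in `K`, `trdeg K / F = 1`, `R_F(N) = 0`, `Finb`: the centre of every place `q` of `K / F` is a prime divisor `P`, and `q.R = P.p.R`.
PROOF. `y` the centre, `κ = X.kap y`.  `X.O y ≠ K` (`q.R ≠ K`), so `trdeg κ ≤ 2`; if `trdeg κ = 2`: `pdiv_of_trdeg`, and the discrete valuation ring `X.O y ⊆ q.R` is `q.R` (`Dom`).  Suppose `trdeg κ ≤ 1`.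
`glb` for `u = A` (`T(N,A,A) > 0`, `l N > 0`): `j ≥ 1` with `h0 (A ^ j N ^ n) → ∞`, `B = A ^ j`; `R_F (B N ^ n) = j R_F(A)`.  `ext_tau`, `sig`, `Ω` the algebraic closure of `K`, `π` with `q.ord π = 1`.
(0) `trdeg κ = 0`: `κ = k` (`k` algebraically closed): `N₀ > j R_F(A)`, `fin_jet`, `jet_rel`: more than `u` sections of `B N ^ n` would be dependent over `k` (`∑ a_i f_i`, `a_i ∈ k`, has degree `1` over `K`;
`deg_bd`): `h0 (B N ^ n) ≤ u` for all `n`: contradiction.
(1) `trdeg κ = 1`: `t₀ ∈ κ` transcendental over `k`, `t = σ t₀`, transcendental over `k`, algebraic over `F`, so integral over `K`; `d = natDegree (minpoly K t)`; every `∑ p_i(t) f_i` is in `K⟮t⟯`, so of degree `≤ d`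
over `K`.  `N₀ > d j R_F(A)`.  `κ` is finite over `k(t₀)` (`κ` is finitely generated over `k`: H54/RV/B4 `kap_fg`, trdeg `1`), so `κ ⊗ O` modulo `J ^ N₀` is spanned by `u` elements over `k(t₀)` = `IntermediateField.adjoin k {t₀}`
(`fin_jet`): any `u + 1` sections of `B N ^ n` satisfy `∑ a_i ⊗ g_i ∈ J ^ N₀` with `a_i ∈ k(t₀)` not all `0`, multiply by a common denominator: `a_i = p_i(t₀)`; `jet_rel`, `deg_bd`: `∑ p_i(t) f_i = 0`.
This is `RelT t (secL (B N ^ n) 1) u` with `u` independent of `n`: `m ≥ T(N,A,B)`, `n` with `(m + 1) u < h0 (B N ^ n)`: `jj_false` (`T(N,A,B N ^ n) = T(N,A,B)`).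
-/

set_option autoImplicit false

namespace Pool.Agent.H61.ZO

open Pool.Agent.H54.RV Pool.Agent.H83.TU Pool.Agent.H83.TK Pool.Agent.H20.TD Pool.Agent.H20.TP Pool.Agent.H20.ZO Pool.Agent.H39.TQ
open Pool.Agent.H24.VP (RR chS chi)
open scoped TensorProduct


private theorem coefs {k κ Ω : Type} [Field k] [Field κ] [Algebra k κ] [Field Ω] [Algebra k Ω] (σ : κ →ₐ[k] Ω)
    (t₀ : κ) {n : ℕ} (a : Fin n → κ) (ha : ∀ i, a i ∈ IntermediateField.adjoin k {t₀}) (hne : ∃ i, a i ≠ 0) :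
    ∃ (p : Fin n → Polynomial k) (e : κ), p ≠ 0 ∧ ∀ i, Polynomial.aeval (σ t₀) (p i) = σ (e * a i) := by
  classical
  have h1 : ∀ i, ∃ r s : Polynomial k, Polynomial.aeval t₀ s ≠ 0 ∧
      Polynomial.aeval t₀ r = a i * Polynomial.aeval t₀ s := by
    intro i
    obtain ⟨r, s, hrs⟩ := (IntermediateField.mem_adjoin_simple_iff k (a i)).1 (ha i)
    by_cases hs : Polynomial.aeval t₀ s = 0
    · refine ⟨0, 1, by simp, ?_⟩
      rw [hrs, hs, div_zero, map_zero, zero_mul]
    · refine ⟨r, s, hs, ?_⟩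
      rw [hrs, div_mul_cancel₀ _ hs]
  choose r s hs hrs using h1
  have key : ∀ i, Polynomial.aeval t₀ (r i * ∏ j ∈ Finset.univ.erase i, s j) =
      (∏ j, Polynomial.aeval t₀ (s j)) * a i := by
    intro i
    rw [map_mul, map_prod, hrs, mul_assoc,
      Finset.mul_prod_erase Finset.univ (fun j => Polynomial.aeval t₀ (s j)) (Finset.mem_univ i), mul_comm]
  refine ⟨fun i => r i * ∏ j ∈ Finset.univ.erase i, s j, ∏ j, Polynomial.aeval t₀ (s j), ?_, ?_⟩
  · obtain ⟨i, hi⟩ := hne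
    intro h0
    have h2 := key i
    rw [show r i * ∏ j ∈ Finset.univ.erase i, s j = 0 from congrFun h0 i, map_zero] at h2
    exact mul_ne_zero (Finset.prod_ne_zero_iff.2 fun j _ => hs j) hi h2.symm
  · intro i
    rw [← key i, Polynomial.aeval_algHom_apply]

private theorem fd {k κ : Type} [Field k] [Field κ] [Algebra k κ] (E : IntermediateField k κ)
    (hfg : (⊤ : IntermediateField k κ).FG) (halg : Algebra.IsAlgebraic E κ) : FiniteDimensional E κ := by
  obtain ⟨s, hs⟩ := hfg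
  have h1 : IntermediateField.adjoin E (s : Set κ) = ⊤ := by
    rw [eq_top_iff]
    intro a _
    have h2 : a ∈ IntermediateField.adjoin k (s : Set κ) := by
      rw [hs]
      exact IntermediateField.mem_top
    have h3 : IntermediateField.adjoin k (s : Set κ) ≤ (IntermediateField.adjoin E (s : Set κ)).restrictScalars k := by
      rw [IntermediateField.adjoin_le_iff]
      exact IntermediateField.subset_adjoin E _
    exact h3 h2
  have h4 : FiniteDimensional E (IntermediateField.adjoin E (s : Set κ)) :=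
    IntermediateField.finiteDimensional_adjoin (fun x _ => Algebra.IsIntegral.isIntegral x)
  rw [h1] at h4
  exact Module.Finite.equiv (IntermediateField.topEquiv (F := E) (E := κ)).toLinearEquiv

private theorem base {k κ : Type} [Field k] [Field κ] [Algebra k κ] (htr : Algebra.trdeg k κ = 1) :
    ∃ t₀ : κ, Transcendental k t₀ ∧ Algebra.IsAlgebraic (IntermediateField.adjoin k {t₀}) κ := by
  have h1 : ¬ Algebra.IsAlgebraic k κ := by
    intro h
    rw [trdeg_eq_zero_iff.2 h] at htr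
    exact zero_ne_one htr
  rw [Algebra.isAlgebraic_def] at h1
  push Not at h1
  obtain ⟨t₀, ht₀⟩ := h1
  have h2 : AlgebraicIndependent k (fun _ : Unit => t₀) := by
    rw [algebraicIndependent_unique_type_iff]
    exact ht₀
  have h3 : IsTranscendenceBasis k (fun _ : Unit => t₀) := by
    refine h2.isTranscendenceBasis_of_trdeg_le_of_finite ?_
    rw [htr]
    simp
  have h4 := h3.isAlgebraic_field
  rw [Set.range_const] at h4
  exact ⟨t₀, ht₀, h4⟩

private theorem reln {k κ B : Type} [Field k] [Field κ] [Algebra k κ] [CommRing B] [Algebra κ B]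
    (E : IntermediateField k κ) [FiniteDimensional E κ] (J : Ideal B) (u : ℕ) (e : Fin u → B)
    (he : ∀ b : B, ∃ c : Fin u → κ, b - ∑ i, c i • e i ∈ J) : ∃ u' : ℕ, ∀ g : Fin (u' + 1) → B,
      ∃ a : Fin (u' + 1) → κ, (∀ i, a i ∈ E) ∧ (∃ i, a i ≠ 0) ∧ ∑ i, a i • g i ∈ J := by
  classical
  have h1 : Module.Finite κ (B ⧸ J) := by
    refine ⟨⟨Finset.univ.image (fun i => Ideal.Quotient.mk J (e i)), ?_⟩⟩
    rw [eq_top_iff]
    rintro m -
    obtain ⟨b, rfl⟩ := Ideal.Quotient.mk_surjective m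
    obtain ⟨c, hc⟩ := he b
    have h2 : Ideal.Quotient.mk J b = ∑ i, c i • Ideal.Quotient.mk J (e i) := by
      have h3 := (Ideal.Quotient.mk_eq_mk_iff_sub_mem (I := J) b (∑ i, c i • e i)).2 hc
      rw [h3, map_sum]
      rfl
    rw [h2]
    refine Submodule.sum_mem _ fun i _ => Submodule.smul_mem _ _ (Submodule.subset_span ?_)
    exact Finset.mem_coe.2 (Finset.mem_image_of_mem _ (Finset.mem_univ i))
  have h4 : Module.Finite E (B ⧸ J) := Module.Finite.trans κ (B ⧸ J)
  refine ⟨Module.finrank E (B ⧸ J), fun g => ?_⟩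
  have h5 : ¬ LinearIndependent E (fun i => Ideal.Quotient.mk J (g i)) := by
    intro h6
    have h7 := h6.fintype_card_le_finrank
    rw [Fintype.card_fin] at h7
    omega
  rw [Fintype.not_linearIndependent_iff] at h5
  obtain ⟨a, ha, i, hi⟩ := h5
  refine ⟨fun i => (a i : κ), fun i => (a i).2, ⟨i, fun h => hi (Subtype.ext h)⟩, ?_⟩
  rw [← Ideal.Quotient.eq_zero_iff_mem, map_sum, ← ha]
  rfl

private theorem degb {K Ω : Type} [Field K] [Field Ω] [Algebra K Ω] {t x : Ω} (ht : IsIntegral K t)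
    (hx : x ∈ IntermediateField.adjoin K {t}) : (minpoly K x).natDegree ≤ (minpoly K t).natDegree := by
  have h1 : FiniteDimensional K (IntermediateField.adjoin K {t}) := IntermediateField.adjoin.finiteDimensional ht
  rw [← IntermediateField.adjoin.finrank ht]
  have h2 : minpoly K x = minpoly K (⟨x, hx⟩ : IntermediateField.adjoin K {t}) :=
    minpoly.algebraMap_eq (algebraMap (IntermediateField.adjoin K {t}) Ω).injective ⟨x, hx⟩
  rw [h2]
  exact minpoly.natDegree_le _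


private theorem exT {k κ Ω : Type} [Field k] [Field κ] [Algebra k κ] [Field Ω] [Algebra k Ω]
    (σ : κ →ₐ[k] Ω) (hfg : (⊤ : IntermediateField k κ).FG) {n : ℕ} (hn : Algebra.trdeg k κ = n) (hn2 : n < 2)
    (ht : ∃ t : Ω, Transcendental k t) : ∃ (E : IntermediateField k κ) (t : Ω), Transcendental k t ∧
      FiniteDimensional E κ ∧ ∀ (m : ℕ) (a : Fin m → κ), (∀ i, a i ∈ E) → (∃ i, a i ≠ 0) →
        ∃ (p : Fin m → Polynomial k) (e : κ), p ≠ 0 ∧ ∀ i, Polynomial.aeval t (p i) = σ (e * a i) := by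
  have hcases : n = 0 ∨ n = 1 := by omega
  rcases hcases with rfl | rfl
  · obtain ⟨t, ht⟩ := ht
    have h1 : Algebra.IsAlgebraic k κ := trdeg_eq_zero_iff.1 (by rw [hn, Nat.cast_zero])
    refine ⟨⊥, t, ht, fd ⊥ hfg (Algebra.IsAlgebraic.tower_top (K := k) _), fun m a ha hne => ?_⟩
    have h2 : ∀ i, ∃ c : k, algebraMap k κ c = a i := fun i => IntermediateField.mem_bot.1 (ha i)
    choose c hc using h2
    refine ⟨fun i => Polynomial.C (c i), 1, ?_, fun i => ?_⟩
    · obtain ⟨i, hi⟩ := hne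
      intro h0
      apply hi
      have h3 : Polynomial.C (c i) = 0 := congrFun h0 i
      rw [← hc i, Polynomial.C_eq_zero.1 h3, map_zero]
    · rw [Polynomial.aeval_C, one_mul, ← hc i, AlgHom.commutes]
  · obtain ⟨t₀, ht₀, halg⟩ := base (k := k) (κ := κ) (by rw [hn, Nat.cast_one])
    refine ⟨IntermediateField.adjoin k {t₀}, σ t₀, ?_, fd _ hfg halg, fun m a ha hne => coefs σ t₀ a ha hne⟩
    rintro ⟨p, hp, hp0⟩
    apply ht₀
    refine ⟨p, hp, ?_⟩
    rw [Polynomial.aeval_algHom_apply] at hp0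
    exact (map_eq_zero σ).1 hp0


private theorem tsum {k κ O : Type} [Field k] [Field κ] [Algebra k κ] [CommRing O] [Algebra k O]
    (J : Ideal (κ ⊗[k] O)) {n : ℕ} (a : Fin n → κ) (g : Fin n → O) (e : κ)
    (h : ∑ i, a i • ((1 : κ) ⊗ₜ[k] g i) ∈ J) : ∑ i, (e * a i) ⊗ₜ[k] g i ∈ J := by
  have h3 : ∑ i, (e * a i) ⊗ₜ[k] g i = (e ⊗ₜ[k] 1) * ∑ i, a i • ((1 : κ) ⊗ₜ[k] g i) := by
    rw [Finset.mul_sum]
    refine Finset.sum_congr rfl fun i _ => ?_
    rw [TensorProduct.smul_tmul', Algebra.TensorProduct.tmul_mul_tmul, smul_eq_mul, mul_one, one_mul]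
  rw [h3]
  exact Ideal.mul_mem_left _ _ h

variable {k K : Type} [Field k] [Field K] [Algebra k K] {X : Mod k K}
  {T : Cart X → Cart X → Cart X → ℝ} {l : Cart X → ℝ} {c : ℝ}

private theorem nd_end [CharZero k] [IsAlgClosed k] [T0Space X.P] (h : Hyp X) (hr : RR T l c) {A N : Cart X}
    (hZ : Zn T l A N) (hfin : Finb T A N) {t : AlgebraicClosure K} (ht : Transcendental k t) {j u : ℕ} {C : ℝ} {n₀ : ℕ}
    (hn : ∀ n ≥ n₀, (n : ℝ) * ((j : ℝ) ^ 2 * T N A A / 2 + l N) - C ≤ h0 (A ^ j * N ^ n) 1)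
    (hrel : ∀ n, RelT (k := k) t (secL (A ^ j * N ^ n) 1 : Set K) u) : False := by
  obtain ⟨m, hm⟩ := exists_nat_gt (T N A (A ^ j))
  have hpos : 0 < (j : ℝ) ^ 2 * T N A A / 2 + l N := by
    have h1 := hZ.pos
    have h2 := hZ.lpos
    positivity
  obtain ⟨n, hn1, hn2⟩ : ∃ n : ℕ, n₀ ≤ n ∧ ((m + 1) * u : ℝ) < n * ((j : ℝ) ^ 2 * T N A A / 2 + l N) - C := by
    obtain ⟨n, hn⟩ := exists_nat_gt (max (n₀ : ℝ) (((m + 1) * u + C) / ((j : ℝ) ^ 2 * T N A A / 2 + l N)))
    refine ⟨n, by exact_mod_cast (le_max_left _ _).trans hn.le, ?_⟩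
    have h1 := (le_max_right _ _).trans_lt hn
    rw [div_lt_iff₀ hpos] at h1
    linarith
  have hL : ((m + 1) * u : ℝ) < h0 (A ^ j * N ^ n) 1 := hn2.trans_le (hn n hn1)
  have hL' : (m + 1) * u < h0 (A ^ j * N ^ n) 1 := by exact_mod_cast hL
  have hNA : T N A (A ^ j * N ^ n) = T N A (A ^ j) := by
    rw [hr.tri.add3, hr.tri.pow3 (A := N), hr.tri.s23 N A N, hZ.sq, mul_zero, add_zero]
  exact jj_false h hr hZ hfin ht (hrel n) hL' (by rw [hNA]; linarith)

theorem no_deep [CharZero k] [IsAlgClosed k] [T0Space X.P] (h : Hyp X) (hr : RR T l c) {A N : Cart X} (hZ : Zn T l A N)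
    (hfin : Finb T A N) (F : IntermediateField k K) (htr : Algebra.trdeg F K = 1) (hc : Clo F)
    (hR : RF h.var h.gen F N = 0) (q : Place F K) :
    ∃ P : PDiv X, P.η = cenK h.var h.gen (down q) ∧ ∀ a : K, a ∈ q.R ↔ a ∈ P.p.R := by
  by_cases h2 : Algebra.trdeg k (X.kap (cenK h.var h.gen (down q))) = 2
  · obtain ⟨P, hP1, hP2⟩ := pdiv_of_trdeg h h2
    have he : P.η = cenK h.var h.gen (down q) := (hP1.antisymm hP2).eq
    refine ⟨P, he, fun a => ⟨fun ha => ?_, fun ha => ?_⟩⟩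
    · by_contra hna
      have h3 : a⁻¹ ∈ P.p.R := (P.p.R.mem_or_inv_mem a).resolve_left hna
      have h4 : a⁻¹ ∈ X.O (cenK h.var h.gen (down q)) := by
        rw [← he]
        exact (P.mem _).2 h3
      have ha0 : a ≠ 0 := by
        rintro rfl
        exact hna (zero_mem _)
      have h5 := (cenK_dom h.var h.gen (down q) _ h4).2 (inv_ne_zero ha0) (by rw [inv_inv]; exact ha)
      rw [inv_inv, ← he] at h5
      exact hna ((P.mem _).1 h5)
    · have h4 : a ∈ X.O (cenK h.var h.gen (down q)) := by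
        rw [← he]
        exact (P.mem _).2 ha
      exact cenK_le h.var h.gen (down q) a h4
  · exfalso
    obtain ⟨g, hg⟩ := id h.gen
    obtain ⟨π, hπ0, hπ⟩ := ord_unif q
    have hlt : Algebra.trdeg k (X.kap (cenK h.var h.gen (down q))) < Algebra.trdeg k K := by
      refine trdeg_lt_gen h.var hg hπ0 fun hun => ?_
      have h3 := (ord_eq_zero q π hπ0).2 ⟨cenK_le h.var h.gen (down q) _ hun.2.1, cenK_le h.var h.gen (down q) _ hun.2.2⟩
      omega
    rw [h.tr] at hlt
    obtain ⟨n, hn⟩ := Cardinal.lt_aleph0.1 (hlt.trans (by exact_mod_cast Cardinal.natCast_lt_aleph0 (n := 3)))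
    have hn3 : n < 3 := by
      rw [hn] at hlt
      exact_mod_cast hlt
    have hn2 : n ≠ 2 := by
      rintro rfl
      exact h2 (by rw [hn]; norm_num)
    obtain ⟨V, τ, hτ⟩ := ext_tau htr (F_fg h.var h.gen F) q
    obtain ⟨σ, hσ, hσa⟩ := sig h.var h.gen q hτ
    have htex : ∃ t : AlgebraicClosure K, Transcendental k t := by
      have h3 : ¬ Algebra.IsAlgebraic k K := by
        intro h4
        have h5 := trdeg_eq_zero_iff.2 h4
        rw [h.tr] at h5
        norm_num at h5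
      rw [Algebra.isAlgebraic_def] at h3
      push Not at h3
      obtain ⟨t₁, ht₁⟩ := h3
      refine ⟨algebraMap K _ t₁, ?_⟩
      rintro ⟨p, hp, hp0⟩
      apply ht₁
      refine ⟨p, hp, ?_⟩
      rw [Polynomial.aeval_algebraMap_apply] at hp0
      exact (map_eq_zero _).1 hp0
    obtain ⟨E, t, ht, hfd, hT⟩ := exT σ (kap_fg h.var _) hn (by omega) htex
    obtain ⟨j, hj⟩ := glb h hr hZ (u := A) hZ.pos
    obtain ⟨C, n₀, hn0⟩ := hj j le_rfl
    have hti : IsIntegral K t := Algebra.IsIntegral.isIntegral t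
    obtain ⟨N₀, hN₀⟩ : ∃ N₀ : ℕ, 1 ≤ (N₀ : ℤ) ∧ ((minpoly K t).natDegree : ℤ) * (j * RF h.var h.gen F A) < N₀ := by
      refine ⟨(((minpoly K t).natDegree : ℤ) * (j * RF h.var h.gen F A)).toNat + 1, ?_, ?_⟩
      · push_cast
        omega
      · push_cast
        omega
    obtain ⟨u, e, he⟩ := fin_jet h.var (cenK h.var h.gen (down q)) N₀
    obtain ⟨u', hu'⟩ := reln E (JY (cenK h.var h.gen (down q)) ^ N₀) u e he
    refine nd_end h hr hZ hfin ht hn0 (u := u') fun n f hf => ?_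
    have hfy : ∀ i, f i * (A ^ j * N ^ n).eq (cenK h.var h.gen (down q)) ∈ X.O (cenK h.var h.gen (down q)) := by
      intro i
      have h3 := hf i (cenK h.var h.gen (down q))
      rwa [pow_one] at h3
    obtain ⟨a, haE, hane, haJ⟩ := hu' (fun i => (1 : X.kap (cenK h.var h.gen (down q))) ⊗ₜ[k]
      (⟨f i * (A ^ j * N ^ n).eq (cenK h.var h.gen (down q)), hfy i⟩ : X.O (cenK h.var h.gen (down q))))
    obtain ⟨p, e', hp, hpe⟩ := hT (u' + 1) a haE hane
    refine ⟨p, hp, ?_⟩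
    have hJ : ∑ i, ((e' * a i) ⊗ₜ[k]
        (⟨f i * (A ^ j * N ^ n).eq (cenK h.var h.gen (down q)), hfy i⟩ : X.O (cenK h.var h.gen (down q)))) ∈
        JY (cenK h.var h.gen (down q)) ^ N₀ := by
      exact tsum _ a _ e' haJ
    by_contra hx
    have hsum : ∑ i, Polynomial.aeval t (p i) * algebraMap K (AlgebraicClosure K) (f i) =
        ∑ i, σ (e' * a i) * algebraMap K (AlgebraicClosure K) (f i) :=
      Finset.sum_congr rfl fun i _ => by rw [hpe i]
    have hx' : ∑ i, σ (e' * a i) * algebraMap K (AlgebraicClosure K) (f i) ≠ 0 := by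
      rw [← hsum]
      exact hx
    have hv := jet_rel h.var h.gen q hτ σ hσ hσa hπ0 hπ N₀ (A ^ j * N ^ n) _ f hfy (fun i => e' * a i) hJ
    have hd := deg_bd h.var h.gen htr (A ^ j * N ^ n) q hτ f hf (fun i => σ (e' * a i)) (fun i => hσa _) hx' hπ0 hπ N₀ hv
    have hRD : RF h.var h.gen F (A ^ j * N ^ n) = j * RF h.var h.gen F A := by
      rw [rf_mul h.var h.gen F htr, rf_pow h.var h.gen F htr, rf_pow h.var h.gen F htr, hR, mul_zero, add_zero]
    rw [hRD] at hd
    have hmem : ∑ i, σ (e' * a i) * algebraMap K (AlgebraicClosure K) (f i) ∈ IntermediateField.adjoin K {t} := by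
      rw [← hsum]
      refine sum_mem fun i _ => mul_mem ?_ (IntermediateField.algebraMap_mem _ _)
      have h3 : Polynomial.aeval t (p i) ∈ Algebra.adjoin K ({t} : Set (AlgebraicClosure K)) := by
        rw [← Polynomial.aeval_map_algebraMap K]
        exact Polynomial.aeval_mem_adjoin_singleton K t
      exact IntermediateField.algebra_adjoin_le_adjoin K _ h3
    have hdeg := degb hti hmem
    obtain ⟨hN1, hN2⟩ := hN₀
    have hdeg' : ((minpoly K (∑ i, σ (e' * a i) * algebraMap K (AlgebraicClosure K) (f i))).natDegree : ℤ) ≤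
        (minpoly K t).natDegree := by exact_mod_cast hdeg
    rcases le_or_gt 0 ((j : ℤ) * RF h.var h.gen F A) with h5 | h5
    · have h6 := mul_le_mul_of_nonneg_right hdeg' h5
      linarith
    · have h6 : ((minpoly K (∑ i, σ (e' * a i) * algebraMap K (AlgebraicClosure K) (f i))).natDegree : ℤ) *
          (j * RF h.var h.gen F A) ≤ 0 := mul_nonpos_of_nonneg_of_nonpos (Int.natCast_nonneg _) h5.le
      linarith

end Pool.Agent.H61.ZO
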